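import Pool.Agent.Helper472_HK.Loc

/-!
The averaging projection of a linear action of a group of prime order.
-/

set_option autoImplicit false
set_option linter.unusedSectionVars false

namespace Pool.Agent.Helper472_HK

open Pool.Agent.Helper534.LS Set Topology Module

variable {E : Type} [NormedAddCommGroup E] [NormedSpace ℝ E] [FiniteDimensional ℝ E]
variable {G : Type} [CommGroup G] [Fintype G]

/-- the average of the operators `ρ g` -/
noncomputable def avg (ρ : G →* (E ≃L[ℝ] E)) : E →L[ℝ] E :=
  (Fintype.card G : ℝ)⁻¹ • ∑ g : G, ((ρ g : E ≃L[ℝ] E) : E →L[ℝ] E)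

theorem avg_apply (ρ : G →* (E ≃L[ℝ] E)) (x : E) :
    avg ρ x = (Fintype.card G : ℝ)⁻¹ • ∑ g : G, ρ g x := by
  simp [avg]

theorem avg_fix (ρ : G →* (E ≃L[ℝ] E)) (h : G) (x : E) : ρ h (avg ρ x) = avg ρ x := by
  rw [avg_apply, map_smul, map_sum]
  congr 1
  refine Fintype.sum_equiv (Equiv.mulLeft h) _ _ fun g => ?_
  rw [Equiv.coe_mulLeft, map_mul]
  rfl

theorem avg_inv (ρ : G →* (E ≃L[ℝ] E)) (h : G) (x : E) : avg ρ (ρ h x) = avg ρ x := by
  rw [avg_apply, avg_apply]
  congr 1
  refine Fintype.sum_equiv (Equiv.mulRight h) _ _ fun g => ?_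
  rw [Equiv.coe_mulRight, map_mul]
  rfl

theorem avg_of_fix (ρ : G →* (E ≃L[ℝ] E)) (x : E) (hx : ∀ g, ρ g x = x) : avg ρ x = x := by
  rw [avg_apply, Finset.sum_congr rfl (fun g _ => hx g), Finset.sum_const, Finset.card_univ,
    ← Nat.cast_smul_eq_nsmul ℝ, smul_smul, inv_mul_cancel₀, one_smul]
  exact Nat.cast_ne_zero.2 Fintype.card_ne_zero

theorem avg_PD (ρ : G →* (E ≃L[ℝ] E)) (hp : (Nat.card G).Prime) : PD ρ (avg ρ) where
  fix := avg_fix ρ
  inv := avg_inv ρ
  idem x := avg_of_fix ρ _ (fun g => avg_fix ρ g x)
  free g x h0 hx hg := by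
    by_contra hne
    have : Fact (Nat.card G).Prime := ⟨hp⟩
    have htop : Subgroup.zpowers g = ⊤ := zpowers_eq_top_of_prime_card rfl hne
    have hall : ∀ h : G, ρ h x = x := by
      let S : Subgroup G :=
        { carrier := {h | ρ h x = x}
          mul_mem' := by
            intro a b ha hb
            change ρ (a * b) x = x
            rw [map_mul]
            change ρ a (ρ b x) = x
            rw [show ρ b x = x from hb]
            exact ha
          one_mem' := by
            change ρ 1 x = x
            rw [map_one]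
            rfl
          inv_mem' := by
            intro a ha
            change ρ a⁻¹ x = x
            have h1 : ρ a⁻¹ (ρ a x) = x := by
              change (ρ a⁻¹ * ρ a) x = x
              rw [← map_mul, inv_mul_cancel, map_one]
              rfl
            rwa [show ρ a x = x from ha] at h1 }
      have h1 : Subgroup.zpowers g ≤ S := by
        rw [Subgroup.zpowers_le]
        exact hg
      rw [htop] at h1
      intro h
      exact h1 (Subgroup.mem_top h)
    exact hx (by rw [← avg_of_fix ρ x hall, h0])

end Pool.Agent.Helper472_HK
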