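import Pool.Agent.Helper534.LS.P_mv_exact1
import Pool.Agent.Helper534.LS.P_mv_exact2
import Pool.Agent.Helper534.LS.P_hh_contr
import Pool.Agent.Helper534.LS.P_hmap_comp
import Pool.Agent.Helper534.LS.P_hmap_id
import Pool.Agent.Helper534.LS.P_hmap_homotopic

/-!
Nonvanishing and vanishing of integral singular homology: homotopy retracts, two open sets.
-/

set_option autoImplicit false
set_option linter.unusedSectionVars false

namespace Pool.Agent.Helper472_HK

open Pool.Agent.Helper534.LS Set Topology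

/-- `H_n(X; ℤ) ≠ 0` -/
def NZ (X : Type) [TopologicalSpace X] (n : ℕ) : Prop := ∃ x : HH X n, x ≠ 0

/-- `H_n(X; ℤ) = 0` -/
def VZ (X : Type) [TopologicalSpace X] (n : ℕ) : Prop := ∀ x : HH X n, x = 0

variable {X : Type} [TopologicalSpace X] {Y : Type} [TopologicalSpace Y] {Z : Type}
  [TopologicalSpace Z]

theorem hmap_retract (f : C(X, Y)) (g : C(Y, X)) (h : (g.comp f).Homotopic (ContinuousMap.id X))
    (n : ℕ) (x : HH X n) : hmap g n (hmap f n x) = x := by
  rw [← hmap_comp, hmap_homotopic _ _ h, hmap_id]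

theorem NZ.retract {n : ℕ} (hX : NZ X n) (f : C(X, Y)) (g : C(Y, X))
    (h : (g.comp f).Homotopic (ContinuousMap.id X)) : NZ Y n := by
  obtain ⟨x, hx⟩ := hX
  refine ⟨hmap f n x, fun h0 => hx ?_⟩
  rw [← hmap_retract f g h n x, h0, map_zero]

theorem VZ.retract {n : ℕ} (hY : VZ Y n) (f : C(X, Y)) (g : C(Y, X))
    (h : (g.comp f).Homotopic (ContinuousMap.id X)) : VZ X n := by
  intro x
  rw [← hmap_retract f g h n x, hY (hmap f n x), map_zero]

theorem NZ.homeo {n : ℕ} (hX : NZ X n) (e : X ≃ₜ Y) : NZ Y n := by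
  refine hX.retract ⟨e, e.continuous⟩ ⟨e.symm, e.symm.continuous⟩ ?_
  have : (ContinuousMap.comp ⟨e.symm, e.symm.continuous⟩ ⟨e, e.continuous⟩ : C(X, X)) =
      ContinuousMap.id X := by
    ext x
    exact e.symm_apply_apply x
  rw [this]

theorem VZ.homeo {n : ℕ} (hX : VZ X n) (e : X ≃ₜ Y) : VZ Y n := by
  refine hX.retract ⟨e.symm, e.symm.continuous⟩ ⟨e, e.continuous⟩ ?_
  have : (ContinuousMap.comp ⟨e, e.continuous⟩ ⟨e.symm, e.symm.continuous⟩ : C(Y, Y)) =
      ContinuousMap.id Y := by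
    ext x
    exact e.apply_symm_apply x
  rw [this]

theorem vz_contr [ContractibleSpace X] (n : ℕ) : VZ X (n + 1) := fun x => hh_contr n x

/-- A map which factors through a space with vanishing homology is not a homotopy retraction. -/
theorem not_factor {n : ℕ} (hX : NZ X n) (hY : VZ Y n) (f : C(X, Y)) (g : C(Y, X))
    (h : (g.comp f).Homotopic (ContinuousMap.id X)) : False := by
  obtain ⟨x, hx⟩ := hX
  exact hx (hY.retract f g h x)

theorem nz_union (U V : Set X) (hU : IsOpen U) (hV : IsOpen V) (hUV : ∀ x, x ∈ U ∨ x ∈ V) (n : ℕ)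
    (h1 : VZ U n) (h2 : VZ V n) (h : NZ ↥(U ∩ V) n) : NZ X (n + 1) := by
  obtain ⟨d, hd⟩ := h
  obtain ⟨x, hx⟩ := mv_exact2 U V hU hV hUV n d (h1 _) (h2 _)
  refine ⟨x, fun h0 => hd ?_⟩
  rw [← hx, h0, map_zero]

theorem vz_union (U V : Set X) (hU : IsOpen U) (hV : IsOpen V) (hUV : ∀ x, x ∈ U ∨ x ∈ V) (n : ℕ)
    (h1 : VZ U (n + 1)) (h2 : VZ V (n + 1)) (h : VZ ↥(U ∩ V) n) : VZ X (n + 1) := by
  intro x
  obtain ⟨u, v, hx⟩ := mv_exact1 U V hU hV hUV n x (h _)
  rw [hx, h1 u, h2 v, map_zero, map_zero, add_zero]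

end Pool.Agent.Helper472_HK
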