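import Pool.Agent.Helper472_HK.Loc

/-!
Complex projective space as a topological space and its affine charts.
-/

set_option autoImplicit false

namespace Pool.Agent.Helper472_HK

open Set Topology Module

/-- Two nonzero vectors of `ℂ^(n+1)` are equivalent if they differ by a nonzero scalar. -/
def cpnSetoid (n : ℕ) : Setoid {v : Fin (n + 1) → ℂ // v ≠ 0} where
  r v w := ∃ c : ℂ, c ≠ 0 ∧ w.1 = c • v.1
  iseqv := by
    refine ⟨fun v => ⟨1, one_ne_zero, (one_smul _ _).symm⟩, ?_, ?_⟩
    · rintro v w ⟨c, hc, h⟩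
      exact ⟨c⁻¹, inv_ne_zero hc, by rw [h, smul_smul, inv_mul_cancel₀ hc, one_smul]⟩
    · rintro u v w ⟨c, hc, h⟩ ⟨d, hd, h'⟩
      exact ⟨d * c, mul_ne_zero hd hc, by rw [h', h, smul_smul]⟩

/-- The complex projective space `ℙⁿ(ℂ)`: nonzero vectors of `ℂ^(n+1)` up to nonzero scalars, with
the quotient topology. -/
def CPn (n : ℕ) : Type := Quotient (cpnSetoid n)

instance (n : ℕ) : TopologicalSpace (CPn n) :=
  inferInstanceAs (TopologicalSpace (Quotient (cpnSetoid n)))

theorem finrank_chart (n : ℕ) : finrank ℝ (Fin n → ℂ) = 2 * n := by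
  rw [Module.finrank_pi_fintype]
  simp [Complex.finrank_real_complex, mul_comm]

/-- the affine coordinates -/
noncomputable def cpCoord (n : ℕ) (i : Fin (n + 1)) : CPn n → (Fin n → ℂ) :=
  Quotient.lift (fun (v : {v : Fin (n + 1) → ℂ // v ≠ 0}) (j : Fin n) =>
    v.1 (i.succAbove j) / v.1 i) (by
    rintro v w ⟨c, hc, h⟩
    funext j
    rw [h]
    change _ = (c * v.1 (i.succAbove j)) / (c * v.1 i)
    rw [mul_div_mul_left _ _ hc])

/-- the point with given affine coordinates -/
noncomputable def cpPt (n : ℕ) (i : Fin (n + 1)) (w : Fin n → ℂ) : CPn n :=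
  Quotient.mk (cpnSetoid n) ⟨i.insertNth (1 : ℂ) w, fun h => by
    have := congrFun h i
    simp at this⟩

/-- the affine piece -/
def cpSrc (n : ℕ) (i : Fin (n + 1)) : Set (CPn n) :=
  {q | ∃ v : {v : Fin (n + 1) → ℂ // v ≠ 0}, v.1 i ≠ 0 ∧ Quotient.mk (cpnSetoid n) v = q}

theorem mem_cpSrc {n : ℕ} {i : Fin (n + 1)} {v : {v : Fin (n + 1) → ℂ // v ≠ 0}} :
    (Quotient.mk (cpnSetoid n) v : CPn n) ∈ cpSrc n i ↔ v.1 i ≠ 0 := by
  constructor
  · rintro ⟨w, hw, h⟩
    obtain ⟨c, hc, h'⟩ := Quotient.exact h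
    rw [h']
    exact mul_ne_zero hc hw
  · intro h
    exact ⟨v, h, rfl⟩

theorem cp_quot (n : ℕ) : IsQuotientMap (Quotient.mk (cpnSetoid n) : _ → CPn n) :=
  isQuotientMap_quotient_mk'

theorem isOpen_cpSrc (n : ℕ) (i : Fin (n + 1)) : IsOpen (cpSrc n i) := by
  refine (cp_quot n).isOpen_preimage.1 ?_
  have : Quotient.mk (cpnSetoid n) ⁻¹' (cpSrc n i) =
      {v : {v : Fin (n + 1) → ℂ // v ≠ 0} | v.1 i ≠ 0} := by
    ext v
    exact mem_cpSrc
  rw [this]
  exact isOpen_ne.preimage ((continuous_apply i).comp continuous_subtype_val)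

/-- the affine charts -/
noncomputable def cpChart (n : ℕ) (i : Fin (n + 1)) : OpenPartialHomeomorph (CPn n) (Fin n → ℂ) where
  toFun := cpCoord n i
  invFun := cpPt n i
  source := cpSrc n i
  target := univ
  map_source' _ _ := mem_univ _
  map_target' w _ := by
    refine mem_cpSrc.2 ?_
    simp
  left_inv' := by
    rintro q ⟨v, hv, rfl⟩
    refine Quotient.sound (s := cpnSetoid n) ⟨v.1 i, hv, ?_⟩
    funext j
    refine Fin.succAboveCases i ?_ (fun j => ?_) j
    · simp
    · simp only [Pi.smul_apply, smul_eq_mul]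
      rw [Fin.insertNth_apply_succAbove]
      change _ = v.1 i * (v.1 (i.succAbove j) / v.1 i)
      rw [mul_div_cancel₀ _ hv]
  right_inv' w _ := by
    funext j
    change (i.insertNth (1 : ℂ) w : Fin (n + 1) → ℂ) (i.succAbove j) /
      (i.insertNth (1 : ℂ) w : Fin (n + 1) → ℂ) i = w j
    rw [Fin.insertNth_apply_succAbove, Fin.insertNth_apply_same, div_one]
  open_source := isOpen_cpSrc n i
  open_target := isOpen_univ
  continuousOn_toFun := by
    refine ((cp_quot n).continuousOn_isOpen_iff (isOpen_cpSrc n i)).2 ?_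
    refine continuousOn_pi.2 fun j => ?_
    refine ContinuousOn.div ?_ ?_ ?_
    · exact ((continuous_apply _).comp continuous_subtype_val).continuousOn
    · exact ((continuous_apply _).comp continuous_subtype_val).continuousOn
    · intro v hv
      exact mem_cpSrc.1 hv
  continuousOn_invFun := by
    refine Continuous.continuousOn ?_
    refine continuous_quotient_mk'.comp ?_
    refine Continuous.subtype_mk ?_ _
    exact (continuous_const (y := (1 : ℂ))).finInsertNth i continuous_id

theorem cp_charts (n : ℕ) (q : CPn n) :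
    ∃ χ : OpenPartialHomeomorph (CPn n) (Fin n → ℂ), q ∈ χ.source := by
  obtain ⟨v, rfl⟩ := Quotient.exists_rep q
  obtain ⟨i, hi⟩ : ∃ i, v.1 i ≠ 0 := by
    by_contra h
    push Not at h
    exact v.2 (funext h)
  exact ⟨cpChart n i, mem_cpSrc.2 hi⟩

end Pool.Agent.Helper472_HK
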