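import Pool.Agent.Helper472_HK.Conf

/-!
Special families of points on the torus.
-/

set_option autoImplicit false
set_option linter.unusedSectionVars false

namespace Pool.Agent.Helper472_HK

open Set Topology Module

/-- the torsion subgroup of the torus -/
abbrev TT : AddSubgroup Tor := AddCommGroup.torsion Tor

theorem mem_TT {t : Tor} {N : ℕ} (hN : 0 < N) (h : N • t = 0) : t ∈ TT :=
  (AddCommGroup.mem_torsion t).2 (isOfFinAddOrder_iff_nsmul_eq_zero.2 ⟨N, hN, h⟩)

theorem mem_TT_of_smul {t : Tor} {N : ℕ} (hN : 0 < N) (h : N • t ∈ TT) : t ∈ TT := by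
  obtain ⟨M, hM, h'⟩ := isOfFinAddOrder_iff_nsmul_eq_zero.1 ((AddCommGroup.mem_torsion _).1 h)
  exact mem_TT (Nat.mul_pos hM hN) (by rw [mul_smul]; exact h')

/-- there is a point of infinite order -/
theorem exists_inf : ∃ s : Tor, ∀ k : ℤ, k • s ∈ TT → k = 0 := by
  refine ⟨(((Real.sqrt 2 : ℝ) : UnitAddCircle), 0), fun k hk => ?_⟩
  obtain ⟨N, hN, h⟩ := isOfFinAddOrder_iff_nsmul_eq_zero.1 ((AddCommGroup.mem_torsion _).1 hk)
  have h1 := congrArg Prod.fst h
  change N • (k • ((Real.sqrt 2 : ℝ) : UnitAddCircle)) = 0 at h1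
  have h2 : (((N : ℝ) * ((k : ℝ) * Real.sqrt 2) : ℝ) : UnitAddCircle) = 0 := by
    rw [← h1, ← AddCircle.coe_zsmul, ← AddCircle.coe_nsmul, nsmul_eq_mul, zsmul_eq_mul]
  obtain ⟨m, hm⟩ := (AddCircle.coe_eq_zero_iff (1 : ℝ)).1 h2
  rw [zsmul_eq_mul, mul_one] at hm
  by_contra hk0
  have hirr : Irrational (Real.sqrt 2) := irrational_sqrt_two
  have hne : ((N : ℤ) * k) ≠ 0 := mul_ne_zero (by exact_mod_cast hN.ne') hk0
  refine hirr ⟨(m : ℚ) / ((N : ℤ) * k : ℤ), ?_⟩
  have hne' : (((N : ℤ) * k : ℤ) : ℝ) ≠ 0 := by exact_mod_cast hne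
  push_cast at hne' ⊢
  rw [div_eq_iff hne', hm]
  ring

/-- the torus is divisible -/
theorem exists_div (t : Tor) {N : ℕ} (hN : 0 < N) : ∃ c : Tor, N • c = t := by
  obtain ⟨v, rfl⟩ := pr_surj t
  refine ⟨pr ((N : ℝ)⁻¹ • v), ?_⟩
  have h1 : ∀ (M : ℕ) (w : V2), M • pr w = pr (M • w) := by
    intro M w
    let φ : V2 →+ Tor := ⟨⟨pr, pr_zero⟩, pr_add⟩
    exact (map_nsmul φ M w).symm
  rw [h1, ← Nat.cast_smul_eq_nsmul ℝ, smul_smul, mul_inv_cancel₀, one_smul]
  exact Nat.cast_ne_zero.2 hN.ne'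

theorem aff_one_zpow (τ : Tor) (k : ℤ) (t : Tor) : (aff 1 τ ^ k) t = t + k • τ := by
  let S : Subgroup (Equiv.Perm Tor × Multiplicative ℤ) :=
    { carrier := {b | ∀ t, b.1 t = t + b.2.toAdd • τ}
      mul_mem' := by
        intro b c hb hc t
        change b.1 (c.1 t) = t + (b.2.toAdd + c.2.toAdd) • τ
        rw [hc t, hb, add_smul, add_assoc, add_comm (c.2.toAdd • τ)]
      one_mem' := fun t => by
        change t = t + (0 : ℤ) • τ
        rw [zero_smul, add_zero]
      inv_mem' := by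
        intro b hb t
        change b.1⁻¹ t = t + (-b.2.toAdd) • τ
        rw [Equiv.Perm.inv_eq_iff_eq, hb, neg_smul, neg_add_cancel_right] }
  have h1 : ((aff 1 τ, Multiplicative.ofAdd 1) : Equiv.Perm Tor × Multiplicative ℤ) ∈ S := by
    intro t
    change (1 : ℤˣ) • t + τ = t + (1 : ℤ) • τ
    rw [one_smul, one_smul]
  have h2 := S.zpow_mem h1 k t
  change (aff 1 τ ^ k) t = t + ((Multiplicative.ofAdd (1 : ℤ)) ^ k).toAdd • τ at h2
  rw [h2, toAdd_zpow, toAdd_ofAdd, smul_eq_mul, mul_one]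

/-- the translation case -/
theorem noChart_trans {n : ℕ} (hn : 2 ≤ n) {τ : Tor} (hτ : (n + 1) • τ = 0) (hτ0 : τ ≠ 0) :
    NoChart n 1 τ := by
  -- the prime and the translation of prime order
  have hd : IsOfFinAddOrder τ := isOfFinAddOrder_iff_nsmul_eq_zero.2 ⟨n + 1, by omega, hτ⟩
  have hd1 : addOrderOf τ ≠ 1 := fun h => hτ0 (AddMonoid.addOrderOf_eq_one_iff.1 h)
  set p := (addOrderOf τ).minFac with hpdef
  have hp : p.Prime := Nat.minFac_prime hd1
  have : Fact p.Prime := ⟨hp⟩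
  obtain ⟨m, hm⟩ : p ∣ addOrderOf τ := Nat.minFac_dvd _
  have hpn : p ∣ n + 1 := (Nat.minFac_dvd _).trans (addOrderOf_dvd_of_nsmul_eq_zero hτ)
  obtain ⟨q, hq⟩ := hpn
  have hm0 : 0 < m := by
    rcases Nat.eq_zero_or_pos m with h | h
    · rw [h, mul_zero] at hm
      exact absurd hm hd.addOrderOf_pos.ne'
    · exact h
  set τ' := m • τ with hτ'def
  have hpτ : p • τ' = 0 := by
    rw [hτ'def, smul_smul, ← hm, addOrderOf_nsmul_eq_zero]
  have hτ'0 : τ' ≠ 0 := by
    intro h
    have := addOrderOf_dvd_of_nsmul_eq_zero h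
    rw [hm] at this
    have := Nat.le_of_dvd hm0 this
    have := hp.two_le
    nlinarith
  have hτ' : (n + 1) • τ' = 0 := by rw [hτ'def, smul_comm, hτ, smul_zero]
  -- the homomorphism from `ZMod p`
  let φ : ZMod p →+ Tor := ZMod.lift p ⟨zmultiplesHom Tor τ', by
    rw [zmultiplesHom_apply, natCast_zsmul, hpτ]⟩
  have hφ1 : φ 1 = τ' := by
    have := ZMod.lift_coe p ⟨zmultiplesHom Tor τ', by
      rw [zmultiplesHom_apply, natCast_zsmul, hpτ]⟩ 1
    rw [Int.cast_one] at this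
    change φ 1 = _ at this
    rw [this]
    change zmultiplesHom Tor τ' 1 = τ'
    rw [zmultiplesHom_apply, one_smul]
  have hφ : ∀ k : ℤ, φ (k : ZMod p) = k • τ' := by
    intro k
    have : (k : ZMod p) = k • (1 : ZMod p) := by rw [zsmul_eq_mul, mul_one]
    rw [this, map_zsmul, hφ1]
  have hφinj : Function.Injective φ := by
    rw [ZMod.lift_injective]
    intro k hk
    change zmultiplesHom Tor τ' k = 0 at hk
    rw [zmultiplesHom_apply] at hk
    have h1 : addOrderOf τ' = p := addOrderOf_eq_prime hpτ hτ'0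
    have h2 := addOrderOf_dvd_iff_zsmul_eq_zero.2 hk
    rw [h1] at h2
    exact (ZMod.intCast_zmod_eq_zero_iff_dvd k p).2 h2
  have hφT : ∀ a, φ a ∈ TT := fun a => mem_TT hp.pos (by
    rw [← map_nsmul, nsmul_eq_mul, ZMod.natCast_self, zero_mul, map_zero])
  -- the number of orbits
  obtain ⟨q', rfl⟩ : ∃ q', q = q' + 1 := by
    rcases q with _ | q'
    · omega
    · exact ⟨q', rfl⟩
  obtain ⟨s, hs⟩ := exists_inf
  obtain ⟨c, hc⟩ := exists_div (-((q' + 1) • ∑ a : ZMod p, φ a)) hp.pos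
  have hcT : c ∈ TT := by
    refine mem_TT_of_smul hp.pos ?_
    rw [hc]
    exact neg_mem (nsmul_mem (sum_mem fun a _ => hφT a) _)
  let M : ℕ := ∑ j : Fin q', ((j : ℕ) + 1)
  let z : Fin (q' + 1) → Tor := Fin.cons (c - M • s) (fun j => ((j : ℕ) + 1) • s)
  have hzsum : ∑ j, z j = c := by
    rw [Fin.sum_univ_succ]
    change (c - M • s) + ∑ j : Fin q', ((j : ℕ) + 1) • s = c
    rw [← Finset.sum_smul, sub_add_cancel]
  -- generic position
  have hz : ∀ i j, z i - z j ∈ TT → i = j := by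
    have h1 : ∀ j : Fin q', z 0 - z j.succ ∉ TT := by
      intro j hj
      change (c - M • s) - ((j : ℕ) + 1) • s ∈ TT at hj
      have h2 : ((M + ((j : ℕ) + 1) : ℕ) : ℤ) • s ∈ TT := by
        rw [natCast_zsmul]
        have h3 := sub_mem hcT hj
        convert h3 using 1
        rw [add_smul]
        abel
      have := hs _ h2
      omega
    intro i j
    refine Fin.cases ?_ (fun i => ?_) i <;> refine Fin.cases ?_ (fun j => ?_) j
    · intro _
      rfl
    · intro h
      exact absurd h (h1 j)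
    · intro h
      refine absurd ?_ (h1 i)
      rw [← neg_sub]
      exact neg_mem h
    · intro h
      change ((i : ℕ) + 1) • s - ((j : ℕ) + 1) • s ∈ TT at h
      have h2 : (((i : ℕ) : ℤ) - ((j : ℕ) : ℤ)) • s ∈ TT := by
        convert h using 1
        rw [sub_smul, natCast_zsmul, natCast_zsmul, add_smul, add_smul]
        abel
      have h3 := hs _ h2
      congr 1
      apply Fin.ext
      omega
  let x : Fin (q' + 1) × ZMod p → Tor := fun b => z b.1 + φ b.2
  let sg : Equiv.Perm (Fin (q' + 1) × ZMod p) := Equiv.prodCongr (Equiv.refl _) (Equiv.addRight 1)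
  have hsg : ∀ b, sg b = (b.1, b.2 + 1) := fun b => rfl
  have hsgk : ∀ (k : ℕ) b, (sg ^ k) b = (b.1, b.2 + k) := by
    intro k
    induction k with
    | zero =>
      intro b
      rw [Nat.cast_zero, add_zero]
      rfl
    | succ k ih =>
      intro b
      rw [pow_succ', Equiv.Perm.mul_apply, ih, hsg]
      push_cast
      rw [add_assoc]
  have hfree : ∀ b, sg b ≠ b := by
    intro b hb
    rw [hsg] at hb
    have := congrArg Prod.snd hb
    simp at this
  have hxinj : Function.Injective x := by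
    rintro ⟨i, a⟩ ⟨j, b⟩ h
    change z i + φ a = z j + φ b at h
    have h1 : z i - z j ∈ TT := by
      have : z i - z j = φ b - φ a := by
        rw [sub_eq_sub_iff_add_eq_add, h, add_comm]
      rw [this]
      exact sub_mem (hφT _) (hφT _)
    have h2 := hz i j h1
    subst h2
    have h3 := hφinj (add_left_cancel h)
    rw [h3]
  refine noChart_of (ι := Fin (q' + 1) × ZMod p) ?_ x ?_ hxinj sg 1 τ' hτ hτ' ?_ ?_ ?_ ?_ ?_
  · rw [Fintype.card_prod, Fintype.card_fin, ZMod.card, hq, mul_comm]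
  · rw [Fintype.sum_prod_type]
    change ∑ j : Fin (q' + 1), ∑ a : ZMod p, (z j + φ a) = 0
    simp only [Finset.sum_add_distrib, Finset.sum_const, Finset.card_univ, ZMod.card,
      Fintype.card_fin]
    rw [← Finset.smul_sum, hzsum, hc, neg_add_cancel]
  · rintro ⟨i, a⟩
    rw [hsg]
    change (1 : ℤˣ) • (z i + φ a) + τ' = z i + φ (a + 1)
    rw [one_smul, map_add, hφ1, add_assoc]
  · refine ⟨m, ?_⟩
    ext1 t
    rw [aff_one_zpow, natCast_zsmul]
    change (1 : ℤˣ) • t + τ' = _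
    rw [one_smul]
  · intro k hk
    obtain ⟨⟨j, b⟩, hj⟩ := hk (0, 0)
    rw [aff_one_zpow] at hj
    change z 0 + φ 0 + k • τ = z j + φ b at hj
    rw [map_zero, add_zero] at hj
    have h1 : z 0 - z j ∈ TT := by
      have : z 0 - z j = φ b - k • τ := by
        rw [sub_eq_sub_iff_add_eq_add, hj, add_comm]
      rw [this]
      exact sub_mem (hφT _) (zsmul_mem (mem_TT (Nat.succ_pos n) hτ) _)
    have h2 := hz 0 j h1
    subst h2
    have h3 : k • τ = φ b := add_left_cancel hj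
    refine ⟨(b.val : ℤ), ?_⟩
    ext1 t
    rw [aff_one_zpow, aff_one_zpow, h3]
    congr 1
    have h4 := hφ (b.val : ℤ)
    rw [← h4]
    congr 1
    push_cast
    rw [ZMod.natCast_zmod_val]
  · have h1 : ((sg, 1) : Equiv.Perm (Fin (q' + 1) × ZMod p) × ℤˣ) ^ p = 1 := by
      refine Prod.ext ?_ ?_
      · change sg ^ p = 1
        ext1 b
        rw [hsgk, ZMod.natCast_self, add_zero]
        rfl
      · change (1 : ℤˣ) ^ p = 1
        rw [one_pow]
    have h2 : ((sg, 1) : Equiv.Perm (Fin (q' + 1) × ZMod p) × ℤˣ) ≠ 1 := by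
      intro h
      have h3 : sg = 1 := congrArg Prod.fst h
      exact hfree (0, 0) (by rw [h3]; rfl)
    rw [orderOf_eq_prime h1 h2]
    exact hp
  · refine Or.inl ⟨rfl, ?_⟩
    let i₀ : Fin (q' + 1) × ZMod p := (0, 0)
    have h1 : ∃ k, k ∉ ({i₀, sg i₀} : Finset (Fin (q' + 1) × ZMod p)) := by
      by_contra hcon
      push Not at hcon
      have h2 : (Finset.univ : Finset (Fin (q' + 1) × ZMod p)) ⊆ {i₀, sg i₀} := fun k _ => hcon k
      have h3 := Finset.card_le_card h2
      have h4 : ({i₀, sg i₀} : Finset (Fin (q' + 1) × ZMod p)).card ≤ 2 := Finset.card_le_two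
      rw [Finset.card_univ, Fintype.card_prod, Fintype.card_fin, ZMod.card, mul_comm, ← hq] at h3
      omega
    obtain ⟨k, hk⟩ := h1
    rw [Finset.mem_insert, Finset.mem_singleton, not_or] at hk
    exact ⟨i₀, k, hfree _, hfree _, hk.1, hk.2⟩

end Pool.Agent.Helper472_HK
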