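import Pool.Agent.Helper472_HK.Exp

/-!
Transfer of the local result to families of points indexed by an arbitrary finite set.
-/

set_option autoImplicit false
set_option linter.unusedSectionVars false

namespace Pool.Agent.Helper472_HK

open Set Topology Module

/-- Some point of the quotient space has no Euclidean neighbourhood of dimension `2 n`. -/
def NoChart (n : ℕ) (ε : ℤˣ) (τ : Tor) : Prop :=
  ∃ q : TwSk n ε τ, ∀ (V : Type) [NormedAddCommGroup V] [NormedSpace ℝ V]
    [FiniteDimensional ℝ V], finrank ℝ V = 2 * n →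
      ∀ β : OpenPartialHomeomorph (TwSk n ε τ) V, q ∉ β.source

/-- the combinatorial condition which bounds the codimension of the fixed space from below -/
def Comb {ι : Type} (s : Equiv.Perm ι) (e : ℤˣ) : Prop :=
  (e = 1 ∧ ∃ i k : ι, s i ≠ i ∧ s k ≠ k ∧ k ≠ i ∧ k ≠ s i) ∨
  (e = -1 ∧ ∃ i j k : ι, i ≠ j ∧ i ≠ k ∧ j ≠ k ∧ s i ≠ j ∧ s i ≠ k ∧ s j ≠ i ∧ s j ≠ k ∧
    s k ≠ i ∧ s k ≠ j)

theorem Comb.exists_J {n : ℕ} {a : Equiv.Perm (Fin (n + 1)) × ℤˣ} (h : Comb a.1 a.2) :
    ∃ (J : (V2 × V2) →ₗ[ℝ] EE n) (w : V2 × V2 → (Fin (n + 1) → V2)),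
      Function.Injective J ∧ ∀ z i, (J z).1 i = w z i - a.2 • w z (a.1⁻¹ i) := by
  -- the linear map attached to a family of vectors
  have key : ∀ W : (V2 × V2) →ₗ[ℝ] (Fin (n + 1) → V2),
      (∀ z, ∑ i, (W z i - a.2 • W z (a.1⁻¹ i)) = 0) →
      (∀ z, (∀ i, W z i - a.2 • W z (a.1⁻¹ i) = 0) → z = 0) →
      ∃ (J : (V2 × V2) →ₗ[ℝ] EE n) (w : V2 × V2 → (Fin (n + 1) → V2)),
        Function.Injective J ∧ ∀ z i, (J z).1 i = w z i - a.2 • w z (a.1⁻¹ i) := by
    intro W h1 h2
    let J : (V2 × V2) →ₗ[ℝ] EE n :=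
      { toFun := fun z => ⟨fun i => W z i - a.2 • W z (a.1⁻¹ i), mem_EE.2 (h1 z)⟩
        map_add' := fun z z' => by
          apply Subtype.ext
          funext i
          change W (z + z') i - a.2 • W (z + z') (a.1⁻¹ i) =
            (W z i - a.2 • W z (a.1⁻¹ i)) + (W z' i - a.2 • W z' (a.1⁻¹ i))
          rw [map_add, Pi.add_apply, Pi.add_apply, smul_add]
          abel
        map_smul' := fun r z => by
          apply Subtype.ext
          funext i
          change W (r • z) i - a.2 • W (r • z) (a.1⁻¹ i) = r • (W z i - a.2 • W z (a.1⁻¹ i))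
          rw [map_smul, Pi.smul_apply, Pi.smul_apply, smul_sub, smul_comm a.2 r] }
    refine ⟨J, fun z => W z, ?_, fun z i => rfl⟩
    refine (injective_iff_map_eq_zero J).2 fun z hz => h2 z fun i => ?_
    exact congrFun (congrArg Subtype.val hz) i
  have hinv : ∀ i j : Fin (n + 1), a.1⁻¹ i = j ↔ a.1 j = i := by
    intro i j
    rw [Equiv.Perm.inv_eq_iff_eq]
    exact eq_comm
  rcases h with ⟨he, i, k, h1, h2, h3, h4⟩ | ⟨he, i, j, k, h1, h2, h3, h4, h5, h6, h7, h8, h9⟩
  · refine key ((LinearMap.single ℝ (fun _ => V2) i).comp (LinearMap.fst ℝ V2 V2) +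
      (LinearMap.single ℝ (fun _ => V2) k).comp (LinearMap.snd ℝ V2 V2)) ?_ ?_
    · intro z
      rw [Finset.sum_sub_distrib, ← Finset.smul_sum, he, one_smul, Equiv.sum_comp a.1⁻¹, sub_self]
    · rintro ⟨x, y⟩ hz
      rw [he] at hz
      have e1 := hz k
      have e2 := hz i
      have s1 : a.1⁻¹ k ≠ i := fun h => h4 ((hinv _ _).1 h).symm
      have s2 : a.1⁻¹ k ≠ k := fun h => h2 ((hinv _ _).1 h)
      have s3 : a.1⁻¹ i ≠ i := fun h => h1 ((hinv _ _).1 h)
      simp only [LinearMap.add_apply, LinearMap.comp_apply, LinearMap.fst_apply,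
        LinearMap.snd_apply, LinearMap.single_apply, Pi.add_apply, one_smul,
        Pi.single_eq_same, Pi.single_eq_of_ne h3, Pi.single_eq_of_ne s1,
        Pi.single_eq_of_ne s2, zero_add, add_zero, sub_zero] at e1
      subst e1
      simp only [LinearMap.add_apply, LinearMap.comp_apply, LinearMap.fst_apply,
        LinearMap.snd_apply, LinearMap.single_apply, Pi.add_apply, one_smul,
        Pi.single_eq_same, Pi.single_zero, Pi.zero_apply, Pi.single_eq_of_ne s3, zero_add,
        add_zero, sub_zero] at e2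
      rw [e2]
      rfl
  · refine key ((LinearMap.single ℝ (fun _ => V2) i).comp (LinearMap.fst ℝ V2 V2) +
      (LinearMap.single ℝ (fun _ => V2) j).comp (LinearMap.snd ℝ V2 V2) -
      (LinearMap.single ℝ (fun _ => V2) k).comp (LinearMap.fst ℝ V2 V2 + LinearMap.snd ℝ V2 V2))
      ?_ ?_
    · intro z
      have : ∀ W : Fin (n + 1) → V2, ∑ i, W i = 0 → ∑ i, (W i - a.2 • W (a.1⁻¹ i)) = 0 := by
        intro W hW
        rw [Finset.sum_sub_distrib, ← Finset.smul_sum, Equiv.sum_comp a.1⁻¹ W, hW, smul_zero,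
          sub_zero]
      apply this
      simp only [LinearMap.sub_apply, LinearMap.add_apply, LinearMap.comp_apply,
        LinearMap.fst_apply, LinearMap.snd_apply, LinearMap.single_apply, Pi.add_apply,
        Pi.sub_apply, Finset.sum_sub_distrib, Finset.sum_add_distrib, Finset.sum_pi_single',
        Finset.mem_univ, if_true]
      simp
    · rintro ⟨x, y⟩ hz
      have hneg : ∀ v : V2, (-1 : ℤˣ) • v = -v := fun t => by
        rw [Units.smul_def, Units.val_neg, Units.val_one, neg_smul, one_smul]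
      rw [he] at hz
      have e1 := hz i
      have e2 := hz j
      have s1 : a.1⁻¹ i ≠ j := fun h => h6 ((hinv _ _).1 h)
      have s2 : a.1⁻¹ i ≠ k := fun h => h8 ((hinv _ _).1 h)
      have s3 : a.1⁻¹ j ≠ i := fun h => h4 ((hinv _ _).1 h)
      have s4 : a.1⁻¹ j ≠ k := fun h => h9 ((hinv _ _).1 h)
      have two : ∀ v : V2, v + v = 0 → v = 0 := by
        intro v hv
        rw [← two_smul ℝ v] at hv
        exact (smul_eq_zero.1 hv).resolve_left two_ne_zero
      simp only [LinearMap.sub_apply, LinearMap.add_apply, LinearMap.comp_apply,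
        LinearMap.fst_apply, LinearMap.snd_apply, LinearMap.single_apply, Pi.add_apply,
        Pi.sub_apply, Pi.single_eq_same, Pi.single_eq_of_ne h1, Pi.single_eq_of_ne h2,
        Pi.single_eq_of_ne s1, Pi.single_eq_of_ne s2, zero_add, add_zero, sub_zero, hneg] at e1
      simp only [LinearMap.sub_apply, LinearMap.add_apply, LinearMap.comp_apply,
        LinearMap.fst_apply, LinearMap.snd_apply, LinearMap.single_apply, Pi.add_apply,
        Pi.sub_apply, Pi.single_eq_same, Pi.single_eq_of_ne h1.symm, Pi.single_eq_of_ne h3,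
        Pi.single_eq_of_ne s3, Pi.single_eq_of_ne s4, zero_add, add_zero, sub_zero, hneg] at e2
      have x0 : x = 0 := by
        by_cases hs : a.1⁻¹ i = i
        · rw [hs, Pi.single_eq_same, sub_neg_eq_add] at e1
          exact two x e1
        · rw [Pi.single_eq_of_ne hs, neg_zero, sub_zero] at e1
          exact e1
      have y0 : y = 0 := by
        by_cases hs : a.1⁻¹ j = j
        · rw [hs, Pi.single_eq_same, sub_neg_eq_add] at e2
          exact two y e2
        · rw [Pi.single_eq_of_ne hs, neg_zero, sub_zero] at e2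
          exact e2
      rw [x0, y0]
      rfl

theorem noChart_of {n : ℕ} {ε : ℤˣ} {τ : Tor} {ι : Type} [Fintype ι]
    (hcard : Fintype.card ι = n + 1) (x : ι → Tor) (hsum : ∑ i, x i = 0)
    (hinj : Function.Injective x) (s : Equiv.Perm ι) (e : ℤˣ) (τ' : Tor)
    (hτ : (n + 1) • τ = 0) (hτ' : (n + 1) • τ' = 0) (act : ∀ i, aff e τ' (x i) = x (s i))
    (pow : ∃ m : ℤ, aff e τ' = aff ε τ ^ m)
    (stab : ∀ k : ℤ, (∀ i, ∃ j, (aff ε τ ^ k) (x i) = x j) →
      ∃ l : ℤ, aff ε τ ^ k = aff e τ' ^ l)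
    (hp : (orderOf ((s, e) : Equiv.Perm ι × ℤˣ)).Prime) (hc : Comb s e) : NoChart n ε τ := by
  let φ : Fin (n + 1) ≃ ι := (Fintype.equivFinOfCardEq hcard).symm
  let y : Cfg n := ⟨fun i => x (φ i), by
    rw [Equiv.sum_comp φ x, hsum]⟩
  let a : Equiv.Perm (Fin (n + 1)) × ℤˣ := (φ.symm.permCongrHom s, e)
  have ha : ∀ i, a.1 i = φ.symm (s (φ i)) := fun i => rfl
  have hst : Stab n ε τ y a τ' :=
    { tor := hτ
      tor' := hτ'
      inj := hinj.comp φ.injective
      act := fun i => by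
        change aff e τ' (x (φ i)) = x (φ (a.1 i))
        rw [ha, Equiv.apply_symm_apply, act]
      pow := pow
      stab := fun k hk => by
        refine stab k fun i => ?_
        obtain ⟨j, hj⟩ := hk (φ.symm i)
        refine ⟨φ j, ?_⟩
        change (aff ε τ ^ k) (x (φ (φ.symm i))) = x (φ j) at hj
        rwa [Equiv.apply_symm_apply] at hj }
  have hord : orderOf a = orderOf ((s, e) : Equiv.Perm ι × ℤˣ) := by
    let f : Equiv.Perm ι × ℤˣ →* Equiv.Perm (Fin (n + 1)) × ℤˣ :=
      MonoidHom.prodMap (φ.symm.permCongrHom).toMonoidHom (MonoidHom.id _)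
    have hf : Function.Injective f :=
      Function.Injective.prodMap (φ.symm.permCongrHom).injective Function.injective_id
    exact orderOf_injective f hf (s, e)
  have hc' : Comb a.1 a.2 := by
    have hne : ∀ i j : ι, i ≠ j → φ.symm i ≠ φ.symm j := fun i j h h' => h (φ.symm.injective h')
    have hs : ∀ i : ι, a.1 (φ.symm i) = φ.symm (s i) := fun i => by
      rw [ha, Equiv.apply_symm_apply]
    rcases hc with ⟨he, i, k, h1, h2, h3, h4⟩ | ⟨he, i, j, k, h1, h2, h3, h4, h5, h6, h7, h8, h9⟩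
    · refine Or.inl ⟨he, φ.symm i, φ.symm k, ?_, ?_, ?_, ?_⟩ <;> (try rw [hs]) <;>
        (apply hne; assumption)
    · refine Or.inr ⟨he, φ.symm i, φ.symm j, φ.symm k, ?_, ?_, ?_, ?_, ?_, ?_, ?_, ?_, ?_⟩ <;>
        (try rw [hs]) <;> (apply hne; assumption)
  obtain ⟨J, w, hJ, hw⟩ := hc'.exists_J
  refine ⟨skMk n ε τ y, ?_⟩
  intro V _ _ _ hV β hβ
  exact hst.not_chart (by rw [hord]; exact hp) J hJ w hw hV β hβ

end Pool.Agent.Helper472_HK
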