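import Pool.Agent.Helper472_HK.Lin

/-!
The local structure of the quotient space at a family of distinct points.
-/

set_option autoImplicit false
set_option linter.unusedSectionVars false

namespace Pool.Agent.Helper472_HK

open Set Topology Module Metric

variable {n : ℕ} {ε : ℤˣ} {τ : Tor}

/-- the exponential map at a family of points -/
def expm (x : Cfg n) (v : EE n) : Cfg n :=
  ⟨fun i => x.1 i + pr (v.1 i), by
    rw [Finset.sum_add_distrib, x.2, zero_add, ← pr_sum, EE_sum, pr_zero]⟩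

theorem expm_cont (x : Cfg n) : Continuous (expm x) := by
  refine Continuous.subtype_mk (continuous_pi fun i => ?_) _
  exact continuous_const.add (pr_cont.comp ((continuous_apply i).comp continuous_subtype_val))

theorem expm_zero (x : Cfg n) : expm x 0 = x := by
  apply Subtype.ext
  funext i
  change x.1 i + pr 0 = x.1 i
  rw [pr_zero, add_zero]

/-- forgetting the point number zero -/
def tl (n : ℕ) : Cfg n ≃ₜ (Fin n → Tor) where
  toFun x i := x.1 i.succ
  invFun y := ⟨Fin.cons (-∑ i, y i) y, by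
    rw [Fin.sum_univ_succ, Fin.cons_zero]
    simp only [Fin.cons_succ]
    rw [neg_add_cancel]⟩
  left_inv x := by
    apply Subtype.ext
    funext i
    refine Fin.cases ?_ (fun j => ?_) i
    · change -∑ i, x.1 (Fin.succ i) = x.1 0
      have := x.2
      rw [Fin.sum_univ_succ] at this
      exact (eq_neg_of_add_eq_zero_left this).symm
    · rfl
  right_inv y := by
    funext i
    rfl
  continuous_toFun := continuous_pi fun i =>
    (continuous_apply i.succ).comp continuous_subtype_val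
  continuous_invFun := by
    refine Continuous.subtype_mk (continuous_pi fun i => ?_) _
    refine Fin.cases ?_ (fun j => ?_) i
    · change Continuous fun y : Fin n → Tor => -∑ i, y i
      fun_prop
    · change Continuous fun y : Fin n → Tor => y j
      fun_prop

/-- forgetting the vector number zero -/
def tlE (n : ℕ) : EE n ≃ₜ (Fin n → V2) where
  toFun x i := x.1 i.succ
  invFun y := ⟨Fin.cons (-∑ i, y i) y, by
    rw [mem_EE, Fin.sum_univ_succ, Fin.cons_zero]
    simp only [Fin.cons_succ]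
    rw [neg_add_cancel]⟩
  left_inv x := by
    apply Subtype.ext
    funext i
    refine Fin.cases ?_ (fun j => ?_) i
    · change -∑ i, x.1 (Fin.succ i) = x.1 0
      have := EE_sum x
      rw [Fin.sum_univ_succ] at this
      exact (eq_neg_of_add_eq_zero_left this).symm
    · rfl
  right_inv y := by
    funext i
    rfl
  continuous_toFun := continuous_pi fun i =>
    (continuous_apply i.succ).comp continuous_subtype_val
  continuous_invFun := by
    refine Continuous.subtype_mk (continuous_pi fun i => ?_) _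
    refine Fin.cases ?_ (fun j => ?_) i
    · change Continuous fun y : Fin n → V2 => -∑ i, y i
      fun_prop
    · change Continuous fun y : Fin n → V2 => y j
      fun_prop

theorem expm_open (x : Cfg n) : IsOpenMap (expm x) := by
  have h1 : IsOpenMap (Pi.map (fun _ : Fin n => pr)) :=
    IsOpenMap.piMap (fun _ => pr_open) (Filter.Eventually.of_forall fun _ => pr_surj)
  have h2 : expm x = (tl n).symm ∘ (fun y => tl n x + y) ∘ (Pi.map (fun _ : Fin n => pr)) ∘
      (tlE n) := by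
    funext v
    apply (tl n).injective
    simp only [Function.comp_apply, Homeomorph.apply_symm_apply]
    rfl
  rw [h2]
  exact (tl n).symm.isOpenMap.comp ((isOpenMap_add_left _).comp (h1.comp (tlE n).isOpenMap))

/-- cyclic groups are commutative -/
@[reducible] def zpCG {A : Type} [Group A] (a : A) : CommGroup ↥(Subgroup.zpowers a) :=
  { (inferInstance : Group ↥(Subgroup.zpowers a)) with
    mul_comm := by
      rintro ⟨_, k, rfl⟩ ⟨_, l, rfl⟩
      apply Subtype.ext
      change a ^ k * a ^ l = a ^ l * a ^ k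
      rw [← zpow_add, ← zpow_add, add_comm] }

attribute [local instance] zpCG

/-- the representation of the stabiliser -/
noncomputable def rhoS {n : ℕ} (a : Equiv.Perm (Fin (n + 1)) × ℤˣ) :
    ↥(Subgroup.zpowers a) →* (EE n ≃L[ℝ] EE n) :=
  (rhoF n).comp (Subgroup.zpowers a).subtype

/-- the data describing the stabiliser of a family of distinct points -/
structure Stab (n : ℕ) (ε : ℤˣ) (τ : Tor) (x : Cfg n) (a : Equiv.Perm (Fin (n + 1)) × ℤˣ)
    (τ' : Tor) : Prop where
  tor : (n + 1) • τ = 0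
  tor' : (n + 1) • τ' = 0
  inj : Function.Injective x.1
  act : ∀ i, aff a.2 τ' (x.1 i) = x.1 (a.1 i)
  pow : ∃ m : ℤ, aff a.2 τ' = aff ε τ ^ m
  stab : ∀ k : ℤ, (∀ i, ∃ j, (aff ε τ ^ k) (x.1 i) = x.1 j) →
    ∃ l : ℤ, aff ε τ ^ k = aff a.2 τ' ^ l

theorem Stab.act_zpow {x : Cfg n} {a : Equiv.Perm (Fin (n + 1)) × ℤˣ} {τ' : Tor}
    (h : Stab n ε τ x a τ') (l : ℤ) (i : Fin (n + 1)) :
    (aff a.2 τ' ^ l) (x.1 i) = x.1 ((a.1 ^ l) i) := by
  let S : Subgroup (Equiv.Perm Tor × Equiv.Perm (Fin (n + 1))) :=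
    { carrier := {b | ∀ i, b.1 (x.1 i) = x.1 (b.2 i)}
      mul_mem' := by
        intro b c hb hc i
        change b.1 (c.1 (x.1 i)) = x.1 (b.2 (c.2 i))
        rw [hc i, hb]
      one_mem' := fun i => rfl
      inv_mem' := by
        intro b hb i
        change b.1⁻¹ (x.1 i) = x.1 (b.2⁻¹ i)
        rw [Equiv.Perm.inv_eq_iff_eq, hb]
        exact congrArg x.1 (Equiv.apply_symm_apply b.2 i).symm }
  have h1 : ((aff a.2 τ', a.1) : Equiv.Perm Tor × Equiv.Perm (Fin (n + 1))) ∈ S := h.act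
  exact S.zpow_mem h1 l i

theorem Stab.lq {x : Cfg n} {a : Equiv.Perm (Fin (n + 1)) × ℤˣ} {τ' : Tor}
    (h : Stab n ε τ x a τ') :
    ∃ r₀, LQ (rhoS a) (fun v => skMk n ε τ (expm x v)) r₀ := by
  -- a small number
  have hfin : Finite ↥(Subgroup.zpowers (aff ε τ)) := (aff_fin (ε := ε) h.tor).finite_zpowers
  obtain ⟨r, hr0, hr2, hr⟩ : ∃ r : ℝ, 0 < r ∧ r < 1 / 2 ∧ ∀ (k : ℤ) (i j : Fin (n + 1)),
      ‖(aff ε τ ^ k) (x.1 j) - x.1 i‖ < 2 * r → (aff ε τ ^ k) (x.1 j) = x.1 i := by
    classical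
    let d : ↥(Subgroup.zpowers (aff ε τ)) × Fin (n + 1) × Fin (n + 1) → ℝ := fun b =>
      if (b.1 : Equiv.Perm Tor) (x.1 b.2.2) = x.1 b.2.1 then 1
      else ‖(b.1 : Equiv.Perm Tor) (x.1 b.2.2) - x.1 b.2.1‖
    have hd : ∀ b, 0 < d b := by
      intro b
      by_cases hb : (b.1 : Equiv.Perm Tor) (x.1 b.2.2) = x.1 b.2.1
      · simp only [d, if_pos hb]
        exact one_pos
      · simp only [d, if_neg hb]
        exact norm_pos_iff.2 (sub_ne_zero.2 hb)
    obtain ⟨b₀, hb₀⟩ := Finite.exists_min d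
    refine ⟨min (d b₀ / 2) (1 / 4), lt_min (half_pos (hd _)) (by norm_num),
      lt_of_le_of_lt (min_le_right _ _) (by norm_num), ?_⟩
    intro k i j hk
    by_contra hne
    have h1 := hb₀ (⟨aff ε τ ^ k, k, rfl⟩, i, j)
    have h2 : d (⟨aff ε τ ^ k, k, rfl⟩, i, j) = ‖(aff ε τ ^ k) (x.1 j) - x.1 i‖ := by
      simp only [d]
      rw [if_neg hne]
    rw [h2] at h1
    have h3 := min_le_left (d b₀ / 2) (1 / 4)
    linarith
  refine ⟨r, hr0, fun g v => rhoF_norm _ v, ?_, ?_, ?_⟩
  · exact ((skMk_cont n ε τ).comp (expm_cont x)).continuousOn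
  · intro v w hv hw
    have hvi : ∀ i, ‖v.1 i‖ < r := fun i => lt_of_le_of_lt (norm_le_pi_norm v.1 i) hv
    have hwi : ∀ i, ‖w.1 i‖ < r := fun i => lt_of_le_of_lt (norm_le_pi_norm w.1 i) hw
    constructor
    · intro huv
      obtain ⟨σ, k, hk⟩ := skMk_eq.1 huv
      have hk1 : ∀ i, x.1 i + pr (w.1 i) = (aff ε τ ^ k) (x.1 (σ i)) + ε ^ k • pr (v.1 (σ i)) := by
        intro i
        rw [← aff_zpow_add h.tor]
        exact hk i
      have hk2 : ∀ i, (aff ε τ ^ k) (x.1 (σ i)) = x.1 i := by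
        intro i
        apply hr
        have e1 : (aff ε τ ^ k) (x.1 (σ i)) - x.1 i = pr (w.1 i) - ε ^ k • pr (v.1 (σ i)) := by
          rw [sub_eq_sub_iff_add_eq_add, ← hk1 i, add_comm]
        rw [e1]
        calc ‖pr (w.1 i) - ε ^ k • pr (v.1 (σ i))‖
            ≤ ‖pr (w.1 i)‖ + ‖ε ^ k • pr (v.1 (σ i))‖ := norm_sub_le _ _
          _ ≤ ‖w.1 i‖ + ‖v.1 (σ i)‖ := by
              rw [norm_units_smul]
              exact add_le_add (pr_norm_le _) (pr_norm_le _)
          _ < 2 * r := by linarith [hvi (σ i), hwi i]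
      obtain ⟨l, hl⟩ := h.stab k (fun i => ⟨σ⁻¹ i, by
        have := hk2 (σ⁻¹ i)
        have e : σ (σ⁻¹ i) = i := Equiv.apply_symm_apply σ i
        rwa [e] at this⟩)
      refine ⟨⟨a ^ l, l, rfl⟩, ?_⟩
      apply Subtype.ext
      funext i
      change (a ^ l).2 • v.1 ((a ^ l).1⁻¹ i) = w.1 i
      have e1 : (a.1 ^ l) (σ i) = i := by
        apply h.inj
        rw [← h.act_zpow, ← hl, hk2]
      have e2 : (a ^ l).1⁻¹ i = σ i := by
        rw [Equiv.Perm.inv_eq_iff_eq]
        exact e1.symm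
      rw [e2]
      have e3 : x.1 i + pr (w.1 i) = x.1 i + a.2 ^ l • pr (v.1 (σ i)) := by
        have := hk i
        have t1 : (expm x w).1 i = x.1 i + pr (w.1 i) := rfl
        have t2 : (expm x v).1 (σ i) = x.1 (σ i) + pr (v.1 (σ i)) := rfl
        rw [t1, t2, hl, aff_zpow_add h.tor', ← hl, hk2] at this
        exact this
      have e4 : pr (w.1 i) = pr ((a.2 ^ l) • v.1 (σ i)) := by
        rw [pr_units]
        exact add_left_cancel e3
      refine (pr_inj ?_ ?_ e4).symm
      · exact (hwi i).trans hr2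
      · rw [norm_units_smul]
        exact (hvi _).trans hr2
    · rintro ⟨⟨_, l, rfl⟩, hl⟩
      obtain ⟨m, hm⟩ := h.pow
      refine skMk_eq.2 ⟨(a.1 ^ l)⁻¹, m * l, fun i => ?_⟩
      rw [zpow_mul, ← hm]
      have t1 : (expm x w).1 i = x.1 i + pr (w.1 i) := rfl
      have t2 : (expm x v).1 ((a.1 ^ l)⁻¹ i) =
        x.1 ((a.1 ^ l)⁻¹ i) + pr (v.1 ((a.1 ^ l)⁻¹ i)) := rfl
      have e : (a.1 ^ l) ((a.1 ^ l)⁻¹ i) = i := Equiv.apply_symm_apply (a.1 ^ l) i
      rw [t1, t2, aff_zpow_add h.tor', h.act_zpow, e, ← pr_units]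
      have e5 : w.1 i = a.2 ^ l • v.1 ((a.1 ^ l)⁻¹ i) := by
        rw [← hl]
        rfl
      rw [e5]
  · intro U hU _
    change IsOpen ((skMk n ε τ ∘ expm x) '' U)
    rw [image_comp (skMk n ε τ) (expm x)]
    exact skMk_open h.tor _ (expm_open x _ hU)

theorem Stab.not_chart {x : Cfg n} {a : Equiv.Perm (Fin (n + 1)) × ℤˣ} {τ' : Tor}
    (h : Stab n ε τ x a τ') (hp : (orderOf a).Prime) (J : (V2 × V2) →ₗ[ℝ] EE n)
    (hJ : Function.Injective J) (w : V2 × V2 → (Fin (n + 1) → V2))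
    (hw : ∀ z i, (J z).1 i = w z i - a.2 • w z (a.1⁻¹ i))
    {V : Type} [NormedAddCommGroup V] [NormedSpace ℝ V] [FiniteDimensional ℝ V]
    (hV : finrank ℝ V = 2 * n) (β : OpenPartialHomeomorph (TwSk n ε τ) V)
    (hβ : skMk n ε τ x ∈ β.source) : False := by
  obtain ⟨r₀, hr⟩ := h.lq
  have hcard : Nat.card ↥(Subgroup.zpowers a) = orderOf a := Nat.card_zpowers a
  let _ : Fintype ↥(Subgroup.zpowers a) := Fintype.ofFinite _
  have : Nontrivial ↥(Subgroup.zpowers a) := by
    rw [← Finite.one_lt_card_iff_nontrivial, hcard]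
    exact hp.one_lt
  have hPD : PD (rhoS a) (avg (rhoS a)) := avg_PD _ (by rw [hcard]; exact hp)
  -- the image of J is in the kernel of the average
  have hker : ∀ z, avg (rhoS a) (J z) = 0 := by
    intro z
    rw [avg_apply]
    have h0 : ∑ g : ↥(Subgroup.zpowers a), rhoS a g (J z) = 0 := by
      apply Subtype.ext
      funext i
      have t1 : (∑ g : ↥(Subgroup.zpowers a), rhoS a g (J z)).1 i =
          ∑ g : ↥(Subgroup.zpowers a), (g.1.2 • w z (g.1.1⁻¹ i) -
            (g * ⟨a, Subgroup.mem_zpowers a⟩ : ↥(Subgroup.zpowers a)).1.2 •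
              w z ((g * ⟨a, Subgroup.mem_zpowers a⟩ : ↥(Subgroup.zpowers a)).1.1⁻¹ i)) := by
        rw [Submodule.coe_sum, Finset.sum_apply]
        refine Finset.sum_congr rfl fun g _ => ?_
        change g.1.2 • (J z).1 (g.1.1⁻¹ i) = g.1.2 • w z (g.1.1⁻¹ i) -
          (g.1.2 * a.2) • w z ((g.1.1 * a.1)⁻¹ i)
        rw [hw, smul_sub, mul_smul, mul_inv_rev]
        rfl
      rw [t1, Finset.sum_sub_distrib]
      have t2 : ∑ g : ↥(Subgroup.zpowers a),
          (g * ⟨a, Subgroup.mem_zpowers a⟩ : ↥(Subgroup.zpowers a)).1.2 •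
              w z ((g * ⟨a, Subgroup.mem_zpowers a⟩ : ↥(Subgroup.zpowers a)).1.1⁻¹ i) =
          ∑ g : ↥(Subgroup.zpowers a), g.1.2 • w z (g.1.1⁻¹ i) :=
        Fintype.sum_equiv (Equiv.mulRight (⟨a, Subgroup.mem_zpowers a⟩ : ↥(Subgroup.zpowers a)))
          _ _ fun g => rfl
      rw [t2, sub_self]
      rfl
    rw [h0, smul_zero]
  let J' : (V2 × V2) →ₗ[ℝ] LinearMap.ker (avg (rhoS a) : EE n →ₗ[ℝ] EE n) :=
    LinearMap.codRestrict _ J (fun z => hker z)
  have hJ' : Function.Injective J' := by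
    intro z z' hz
    exact hJ (congrArg Subtype.val hz)
  have h4 : 4 ≤ finrank ℝ (LinearMap.ker (avg (rhoS a) : EE n →ₗ[ℝ] EE n)) := by
    have := LinearMap.finrank_le_finrank_of_injective hJ'
    simpa [Module.finrank_prod, Module.finrank_self] using this
  have h5 := LinearMap.finrank_range_add_finrank_ker (avg (rhoS a) : EE n →ₗ[ℝ] EE n)
  rw [finrank_EE] at h5
  refine Pool.Agent.Helper472_HK.not_chart hPD (by omega) (by omega) hr β ?_
  rw [expm_zero]
  exact hβ

end Pool.Agent.Helper472_HK
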