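import Pool.Agent.Helper472_HK.Basic

/-!
The first homology group of the base of a nontrivial connected covering with abelian group of
deck transformations does not vanish.
-/

set_option autoImplicit false
set_option linter.unusedSectionVars false

namespace Pool.Agent.Helper472_HK

open Pool.Agent.Helper534.LS Set Topology

theorem simplex_lpc (n : ℕ) : LocallyPathConnectedSpace (stdSimplex ℝ (Fin (n + 1))) := by
  refine LocallyPathConnectedSpace.of_bases (fun x => Metric.nhds_basis_ball (x := x)) ?_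
  intro x r hr
  have h1 : (Subtype.val '' (Metric.ball x r) : Set (Fin (n + 1) → ℝ)) =
      Metric.ball (x : Fin (n + 1) → ℝ) r ∩ stdSimplex ℝ (Fin (n + 1)) := by
    ext y
    constructor
    · rintro ⟨z, hz, rfl⟩
      exact ⟨hz, z.2⟩
    · rintro ⟨hy, hy'⟩
      exact ⟨⟨y, hy'⟩, hy, rfl⟩
  rw [Topology.IsInducing.subtypeVal.isPathConnected_iff, h1]
  refine Convex.isPathConnected ((convex_ball _ _).inter (convex_stdSimplex ℝ _)) ?_
  exact ⟨x, Metric.mem_ball_self hr, x.2⟩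

theorem simplex_sc (n : ℕ) : SimplyConnectedSpace (stdSimplex ℝ (Fin (n + 1))) := by
  have : ContractibleSpace (stdSimplex ℝ (Fin (n + 1))) :=
    (convex_stdSimplex ℝ (Fin (n + 1))).contractibleSpace ⟨_, single_mem_stdSimplex ℝ 0⟩
  infer_instance

/-- simplices lift to coverings -/
theorem lift_simplex {Y X : Type} [TopologicalSpace Y] [TopologicalSpace X] {q : Y → X}
    (hq : IsCoveringMap q) {n : ℕ} (σ : Sing X n) (y : Y) (x₀ : stdSimplex ℝ (Fin (n + 1)))
    (h : q y = σ x₀) :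
    ∃! τ : Sing Y n, τ x₀ = y ∧ ∀ x, q (τ x) = σ x := by
  have := simplex_lpc n
  have := simplex_sc n
  obtain ⟨F, ⟨hF1, hF2⟩, hF3⟩ := hq.existsUnique_continuousMap_lifts σ x₀ y h
  refine ⟨F, ⟨hF1, fun x => congrFun hF2 x⟩, ?_⟩
  rintro τ ⟨h1, h2⟩
  exact hF3 τ ⟨h1, funext h2⟩

/-- the `i`-th vertex of the standard simplex -/
noncomputable def vtx (n : ℕ) (i : Fin (n + 1)) : stdSimplex ℝ (Fin (n + 1)) :=
  ⟨Pi.single i 1, single_mem_stdSimplex ℝ i⟩

theorem map_vtx (n : ℕ) (i : Fin (n + 2)) (j : Fin (n + 1)) :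
    stdSimplex.map i.succAbove (vtx n j) = vtx (n + 1) (i.succAbove j) := by
  apply Subtype.ext
  funext k
  change (FunOnFinite.linearMap ℝ ℝ i.succAbove (Pi.single j (1 : ℝ))) k = _
  rw [FunOnFinite.linearMap_piSingle]
  rfl

section

variable {Y X G : Type} [TopologicalSpace Y] [TopologicalSpace X] [CommGroup G] [MulAction G Y]
  {q : Y → X} (hq : IsQuotientCoveringMap q G)

include hq

/-- displacement of a lifted path with respect to a section -/
theorem exists_phi : ∃ (s : X → Y) (φ : Sing X 1 → G), (∀ x, q (s x) = x) ∧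
    ∀ (σ : Sing X 1) (τ : Sing Y 1), (∀ x, q (τ x) = σ x) → ∀ a b : G,
      τ (vtx 1 0) = a • s (σ (vtx 1 0)) → τ (vtx 1 1) = b • s (σ (vtx 1 1)) →
      φ σ = b * a⁻¹ := by
  classical
  obtain ⟨s, hs⟩ := hq.surjective.hasRightInverse
  have hex : ∀ σ : Sing X 1, ∃ (c : G), ∀ (τ : Sing Y 1), (∀ x, q (τ x) = σ x) → ∀ a b : G,
      τ (vtx 1 0) = a • s (σ (vtx 1 0)) → τ (vtx 1 1) = b • s (σ (vtx 1 1)) →
      c = b * a⁻¹ := by
    intro σ
    obtain ⟨τ₀, ⟨h0, h0'⟩, -⟩ := lift_simplex hq.isCoveringMap σ (s (σ (vtx 1 0))) (vtx 1 0)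
      (hs _)
    obtain ⟨c, hc⟩ := hq.apply_eq_iff_mem_orbit.1 ((h0' (vtx 1 1)).trans (hs (σ (vtx 1 1))).symm)
    have hc' : c • s (σ (vtx 1 1)) = τ₀ (vtx 1 1) := hc
    refine ⟨c, fun τ hτ a b ha hb => ?_⟩
    -- `τ = a • τ₀`
    have := hq.toContinuousConstSMul
    obtain ⟨ρ, -, hρ⟩ := lift_simplex hq.isCoveringMap σ (τ (vtx 1 0)) (vtx 1 0) (hτ _)
    let τ₁ : Sing Y 1 := ⟨fun x => a • τ₀ x, by fun_prop⟩
    have e1 : τ₁ = ρ := by
      apply hρ
      refine ⟨?_, fun x => ?_⟩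
      · change a • τ₀ (vtx 1 0) = _
        rw [h0, ha]
      · change q (a • τ₀ x) = _
        rw [hq.map_smul, h0']
    have e2 : τ = ρ := hρ _ ⟨rfl, hτ⟩
    have e3 : τ (vtx 1 1) = a • τ₀ (vtx 1 1) := by rw [e2, ← e1]; rfl
    rw [e3, ← hc', smul_smul] at hb
    have := hq.isCancelSMul
    have := IsCancelSMul.right_cancel _ _ _ hb
    rw [← this, mul_comm a c, mul_inv_cancel_right]
  choose φ hφ using hex
  exact ⟨s, φ, hs, fun σ τ h a b ha hb => hφ σ τ h a b ha hb⟩

/-- If `G` is a nontrivial abelian group and the covering space is path connected then `H_1` of the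
base does not vanish. -/
theorem nz_one [PathConnectedSpace Y] [Nontrivial G] : NZ X 1 := by
  classical
  obtain ⟨s, φ, hs, hφ⟩ := exists_phi hq
  -- the homomorphism on chains
  let Φ : (Sing X 1 →₀ ℤ) →ₗ[ℤ] Additive G :=
    Finsupp.linearCombination ℤ (fun σ => Additive.ofMul (φ σ))
  have hΦ : ∀ σ, Φ (Finsupp.single σ 1) = Additive.ofMul (φ σ) := fun σ => by
    simp [Φ]
  have hB : ∀ z : Sing X 2 →₀ ℤ, Φ (bdry X 1 z) = 0 := by
    have : Φ.comp (bdry X 1) = 0 := by
      apply Finsupp.lhom_ext'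
      intro σ
      apply LinearMap.ext_ring
      simp only [LinearMap.comp_apply, Finsupp.lsingle_apply, bdry, LinearMap.sum_apply,
        LinearMap.smul_apply, Finsupp.lmapDomain_apply, Finsupp.mapDomain_single, map_sum, map_smul,
        hΦ, LinearMap.zero_apply]
      -- lift the 2-simplex
      obtain ⟨y, hy⟩ := hq.surjective (σ (vtx 2 0))
      obtain ⟨τ, ⟨-, hτ⟩, -⟩ := lift_simplex hq.isCoveringMap σ y (vtx 2 0) hy
      have hv : ∀ i : Fin 3, ∃ a : G, a • s (σ (vtx 2 i)) = τ (vtx 2 i) := by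
        intro i
        obtain ⟨c, hc⟩ := hq.apply_eq_iff_mem_orbit.1 ((hτ (vtx 2 i)).trans (hs (σ (vtx 2 i))).symm)
        exact ⟨c, hc⟩
      choose a ha using hv
      have hface : ∀ i : Fin 3, φ (sface 1 i σ) = a (i.succAbove 1) * (a (i.succAbove 0))⁻¹ := by
        intro i
        refine hφ _ (sface 1 i τ) (fun x => hτ _) _ _ ?_ ?_
        · change τ (stdSimplex.map i.succAbove (vtx 1 0)) =
            a (i.succAbove 0) • s (σ (stdSimplex.map i.succAbove (vtx 1 0)))
          rw [map_vtx, ha]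
        · change τ (stdSimplex.map i.succAbove (vtx 1 1)) =
            a (i.succAbove 1) • s (σ (stdSimplex.map i.succAbove (vtx 1 1)))
          rw [map_vtx, ha]
      have hsum : (∑ x : Fin (1 + 2), (-1 : ℤ) ^ (x : ℕ) • Additive.ofMul (φ (sface 1 x σ))) =
          Additive.ofMul (φ (sface 1 0 σ)) + -(Additive.ofMul (φ (sface 1 1 σ))) +
            Additive.ofMul (φ (sface 1 2 σ)) := by
        refine (Fin.sum_univ_three _).trans ?_
        have e0 : (((0 : Fin 3) : ℕ)) = 0 := rfl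
        have e1 : (((1 : Fin 3) : ℕ)) = 1 := rfl
        have e2 : (((2 : Fin 3) : ℕ)) = 2 := rfl
        rw [e0, e1, e2, pow_zero, pow_one, one_smul, neg_one_smul, neg_one_sq, one_smul]
      rw [hsum, hface 0, hface 1, hface 2]
      have e : ∀ x y z : G, (Additive.ofMul (z * y⁻¹)) + -(Additive.ofMul (z * x⁻¹)) +
          Additive.ofMul (y * x⁻¹) = 0 := by
        intro x y z
        rw [← ofMul_inv, ← ofMul_mul, ← ofMul_mul]
        have : z * y⁻¹ * (z * x⁻¹)⁻¹ * (y * x⁻¹) = 1 := by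
          rw [mul_inv_rev, inv_inv]
          calc z * y⁻¹ * (x * z⁻¹) * (y * x⁻¹) = (z * z⁻¹) * (y * y⁻¹) * (x * x⁻¹) := by
                ac_rfl
            _ = 1 := by simp
        rw [this]
        rfl
      exact e (a 0) (a 1) (a 2)
    exact fun z => LinearMap.congr_fun this z
  -- a loop
  obtain ⟨g, hg⟩ := exists_ne (1 : G)
  obtain ⟨y₀⟩ : Nonempty Y := inferInstance
  let γ : Path y₀ (g • y₀) := PathConnectedSpace.somePath _ _
  let τ : Sing Y 1 := ⟨fun x => γ ⟨x.1 1, x.2.1 1, by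
      have h1 := x.2.2
      rw [Fin.sum_univ_two] at h1
      have h2 := x.2.1 0
      linarith⟩, γ.continuous.comp (Continuous.subtype_mk
        ((continuous_apply 1).comp continuous_subtype_val) _)⟩
  have := hq.toContinuousConstSMul
  let σ : Sing X 1 := ⟨fun x => q (τ x), hq.continuous.comp τ.continuous⟩
  have hτ0 : τ (vtx 1 0) = y₀ := by
    change γ ⟨(vtx 1 0).1 1, _⟩ = y₀
    have : (⟨(vtx 1 0).1 1, (vtx 1 0).2.1 1, by simp [vtx]⟩ : unitInterval) = 0 := by
      apply Subtype.ext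
      simp [vtx]
    exact (congrArg γ this).trans γ.source
  have hτ1 : τ (vtx 1 1) = g • y₀ := by
    change γ ⟨(vtx 1 1).1 1, _⟩ = g • y₀
    have : (⟨(vtx 1 1).1 1, (vtx 1 1).2.1 1, by simp [vtx]⟩ : unitInterval) = 1 := by
      apply Subtype.ext
      simp [vtx]
    exact (congrArg γ this).trans γ.target
  have hσ0 : σ (vtx 1 0) = q y₀ := congrArg q hτ0
  have hσ1 : σ (vtx 1 1) = q y₀ := (congrArg q hτ1).trans (hq.map_smul g)
  have hcyc : (Finsupp.single σ 1 : Sing X 1 →₀ ℤ) ∈ Cyc X 1 := by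
    change bdry X 0 (Finsupp.single σ 1) = 0
    simp only [bdry, LinearMap.sum_apply, LinearMap.smul_apply, Finsupp.lmapDomain_apply,
      Finsupp.mapDomain_single]
    have hp : ∀ x : stdSimplex ℝ (Fin 1), x = vtx 0 0 := by
      intro x
      apply Subtype.ext
      funext i
      have h1 := x.2.2
      rw [Fin.sum_univ_one] at h1
      have hi : i = 0 := Subsingleton.elim _ _
      rw [hi]
      change x.1 0 = (Pi.single 0 1 : Fin 1 → ℝ) 0
      rw [Pi.single_eq_same]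
      exact h1
    have hf : sface 0 0 σ = sface 0 1 σ := by
      ext x
      change σ (stdSimplex.map (Fin.succAbove 0) x) = σ (stdSimplex.map (Fin.succAbove 1) x)
      rw [hp x, map_vtx, map_vtx]
      have e0 : (0 : Fin 2).succAbove 0 = 1 := rfl
      have e1 : (1 : Fin 2).succAbove 0 = 0 := rfl
      rw [e0, e1, hσ0, hσ1]
    refine (Fin.sum_univ_two _).trans ?_
    have e0 : (((0 : Fin 2) : ℕ)) = 0 := rfl
    have e1 : (((1 : Fin 2) : ℕ)) = 1 := rfl
    rw [e0, e1, hf, pow_zero, pow_one, one_smul, neg_one_smul, add_neg_cancel]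
  refine ⟨cls _ hcyc, fun h0 => ?_⟩
  have hb : (Finsupp.single σ 1 : Sing X 1 →₀ ℤ) ∈ Bdy X 1 := by
    have h1 : (⟨_, hcyc⟩ : Cyc X 1) ∈ (Bdy X 1).submoduleOf (Cyc X 1) :=
      (Submodule.Quotient.mk_eq_zero _).1 h0
    exact h1
  obtain ⟨w, hw⟩ := hb
  have h1 := hB w
  rw [hw, hΦ] at h1
  have h2 : φ σ = 1 := h1
  obtain ⟨a, ha⟩ := hq.apply_eq_iff_mem_orbit.1 ((hs (q y₀)).symm)
  have ha' : a • s (q y₀) = y₀ := ha
  have h3 := hφ σ τ (fun x => rfl) a (g * a) (by rw [hτ0, hσ0, ha'])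
    (by rw [hτ1, hσ1, mul_smul, ha'])
  rw [h2, mul_inv_cancel_right] at h3
  exact hg h3.symm

end

end Pool.Agent.Helper472_HK
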