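import Pool.Agent.Helper472_HK.Sk

/-!
The linear representation on the tangent space.
-/

set_option autoImplicit false
set_option linter.unusedSectionVars false

namespace Pool.Agent.Helper472_HK

open Set Topology Module

/-- the universal cover of the torus -/
abbrev V2 : Type := ℝ × ℝ

/-- the sum of all entries -/
def sumL (n : ℕ) : (Fin (n + 1) → V2) →ₗ[ℝ] V2 := ∑ i, LinearMap.proj i

theorem sumL_apply {n : ℕ} (v : Fin (n + 1) → V2) : sumL n v = ∑ i, v i := by
  simp [sumL, LinearMap.sum_apply]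

/-- the vectors with sum zero -/
abbrev EE (n : ℕ) : Submodule ℝ (Fin (n + 1) → V2) := LinearMap.ker (sumL n)

theorem EE_sum {n : ℕ} (v : EE n) : ∑ i, v.1 i = 0 := by
  have := v.2
  rw [LinearMap.mem_ker, sumL_apply] at this
  exact this

theorem mem_EE {n : ℕ} {v : Fin (n + 1) → V2} : v ∈ EE n ↔ ∑ i, v i = 0 := by
  rw [LinearMap.mem_ker, sumL_apply]

theorem finrank_EE (n : ℕ) : finrank ℝ (EE n) = 2 * n := by
  have h1 := LinearMap.finrank_range_add_finrank_ker (sumL n)
  have h2 : LinearMap.range (sumL n) = ⊤ := by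
    rw [LinearMap.range_eq_top]
    intro z
    refine ⟨Pi.single 0 z, ?_⟩
    rw [sumL_apply]
    simp
  rw [h2, finrank_top, Module.finrank_pi_fintype, Module.finrank_prod, Module.finrank_self] at h1
  simp only [Finset.sum_const, Finset.card_univ, Fintype.card_fin, smul_eq_mul] at h1
  have h3 : finrank ℝ (EE n) = finrank ℝ (LinearMap.ker (sumL n)) := rfl
  rw [h3]
  linarith

/-- signs act by norm preserving linear maps -/
theorem norm_units_smul {F : Type} [NormedAddCommGroup F] (e : ℤˣ) (v : F) : ‖e • v‖ = ‖v‖ := by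
  rcases Int.units_eq_one_or e with h | h
  · rw [h, one_smul]
  · rw [h, Units.smul_def, Units.val_neg, Units.val_one, neg_smul, one_smul, norm_neg]

/-- the action of a signed permutation -/
def linA (n : ℕ) (a : Equiv.Perm (Fin (n + 1)) × ℤˣ) : EE n →ₗ[ℝ] EE n where
  toFun v := ⟨fun i => a.2 • v.1 (a.1⁻¹ i), by
    rw [mem_EE, ← Finset.smul_sum, Equiv.sum_comp a.1⁻¹ v.1, EE_sum, smul_zero]⟩
  map_add' v w := by
    apply Subtype.ext
    funext i
    change a.2 • (v.1 (a.1⁻¹ i) + w.1 (a.1⁻¹ i)) = _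
    rw [smul_add]
    rfl
  map_smul' r v := by
    apply Subtype.ext
    funext i
    change a.2 • (r • v.1 (a.1⁻¹ i)) = r • (a.2 • v.1 (a.1⁻¹ i))
    rw [smul_comm]

theorem linA_mul (n : ℕ) (a b : Equiv.Perm (Fin (n + 1)) × ℤˣ) (v : EE n) :
    linA n (a * b) v = linA n a (linA n b v) := by
  apply Subtype.ext
  funext i
  change (a.2 * b.2) • v.1 ((a.1 * b.1)⁻¹ i) = a.2 • (b.2 • v.1 (b.1⁻¹ (a.1⁻¹ i)))
  rw [mul_smul, mul_inv_rev]
  rfl

theorem linA_one (n : ℕ) (v : EE n) : linA n 1 v = v := by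
  apply Subtype.ext
  funext i
  change (1 : ℤˣ) • v.1 ((1 : Equiv.Perm (Fin (n + 1)))⁻¹ i) = v.1 i
  rw [one_smul, inv_one]
  rfl

/-- the representation of the signed permutations on the vectors with sum zero -/
noncomputable def rhoF (n : ℕ) : (Equiv.Perm (Fin (n + 1)) × ℤˣ) →* (EE n ≃L[ℝ] EE n) where
  toFun a := LinearEquiv.toContinuousLinearEquiv
    { linA n a with
      invFun := linA n a⁻¹
      left_inv := fun v => by
        change linA n a⁻¹ (linA n a v) = v
        rw [← linA_mul, inv_mul_cancel, linA_one]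
      right_inv := fun v => by
        change linA n a (linA n a⁻¹ v) = v
        rw [← linA_mul, mul_inv_cancel, linA_one] }
  map_one' := ContinuousLinearEquiv.ext (funext fun v => linA_one n v)
  map_mul' a b := ContinuousLinearEquiv.ext (funext fun v => linA_mul n a b v)

theorem rhoF_apply {n : ℕ} (a : Equiv.Perm (Fin (n + 1)) × ℤˣ) (v : EE n) (i : Fin (n + 1)) :
    (rhoF n a v).1 i = a.2 • v.1 (a.1⁻¹ i) := rfl

theorem rhoF_norm_le {n : ℕ} (a : Equiv.Perm (Fin (n + 1)) × ℤˣ) (v : EE n) :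
    ‖rhoF n a v‖ ≤ ‖v‖ := by
  change ‖(rhoF n a v).1‖ ≤ ‖v.1‖
  refine (pi_norm_le_iff_of_nonneg (norm_nonneg _)).2 fun i => ?_
  rw [rhoF_apply, norm_units_smul]
  exact norm_le_pi_norm v.1 _

theorem rhoF_norm {n : ℕ} (a : Equiv.Perm (Fin (n + 1)) × ℤˣ) (v : EE n) :
    ‖rhoF n a v‖ = ‖v‖ := by
  refine le_antisymm (rhoF_norm_le a v) ?_
  have h := rhoF_norm_le a⁻¹ (rhoF n a v)
  have h2 : rhoF n a⁻¹ (rhoF n a v) = v := by
    change (rhoF n a⁻¹ * rhoF n a) v = v
    rw [← map_mul, inv_mul_cancel, map_one]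
    rfl
  rwa [h2] at h

/-! ### the covering of the torus -/

/-- the covering map of the torus -/
def pr (v : V2) : Tor := ((v.1 : UnitAddCircle), (v.2 : UnitAddCircle))

theorem pr_add (v w : V2) : pr (v + w) = pr v + pr w := rfl

theorem pr_zero : pr 0 = 0 := rfl

theorem pr_neg (v : V2) : pr (-v) = -pr v := rfl

theorem pr_units (e : ℤˣ) (v : V2) : pr (e • v) = e • pr v := by
  rcases Int.units_eq_one_or e with h | h
  · rw [h, one_smul, one_smul]
  · rw [h, Units.smul_def, Units.smul_def, Units.val_neg, Units.val_one, neg_smul, one_smul,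
      neg_smul, one_smul, pr_neg]

theorem pr_cont : Continuous pr := by
  refine Continuous.prodMk ?_ ?_
  · exact (AddCircle.continuous_mk' 1).comp continuous_fst
  · exact (AddCircle.continuous_mk' 1).comp continuous_snd

theorem pr_open : IsOpenMap pr :=
  IsOpenMap.prodMap QuotientAddGroup.isOpenMap_coe QuotientAddGroup.isOpenMap_coe

theorem pr_surj : Function.Surjective pr := by
  rintro ⟨a, b⟩
  obtain ⟨x, rfl⟩ := QuotientAddGroup.mk_surjective a
  obtain ⟨y, rfl⟩ := QuotientAddGroup.mk_surjective b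
  exact ⟨(x, y), rfl⟩

theorem pr_sum {ι : Type} (s : Finset ι) (v : ι → V2) : pr (∑ i ∈ s, v i) = ∑ i ∈ s, pr (v i) := by
  let φ : V2 →+ Tor := ⟨⟨pr, pr_zero⟩, pr_add⟩
  exact map_sum φ v s

theorem norm_coe_le (r : ℝ) : ‖(r : UnitAddCircle)‖ ≤ |r| := by
  rw [UnitAddCircle.norm_eq]
  have := round_le r 0
  simpa using this

theorem pr_norm_le (v : V2) : ‖pr v‖ ≤ ‖v‖ := by
  rw [Prod.norm_def, Prod.norm_def]
  exact max_le_max (norm_coe_le _) (norm_coe_le _)

theorem coe_inj {r s : ℝ} (hr : |r| < 1 / 2) (hs : |s| < 1 / 2)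
    (h : (r : UnitAddCircle) = (s : UnitAddCircle)) : r = s := by
  have h1 : ((r - s : ℝ) : UnitAddCircle) = 0 := by
    rw [AddCircle.coe_sub, h, sub_self]
  obtain ⟨m, hm⟩ := (AddCircle.coe_eq_zero_iff (1 : ℝ)).1 h1
  rw [zsmul_eq_mul, mul_one] at hm
  have h2 : |(m : ℝ)| < 1 := by
    rw [hm]
    calc |r - s| ≤ |r| + |s| := abs_sub _ _
      _ < 1 := by linarith
  have h3 : m = 0 := by
    rw [← Int.cast_abs] at h2
    have : |m| < 1 := by exact_mod_cast h2
    rwa [Int.abs_lt_one_iff] at this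
  rw [h3, Int.cast_zero] at hm
  linarith

theorem pr_inj {v w : V2} (hv : ‖v‖ < 1 / 2) (hw : ‖w‖ < 1 / 2) (h : pr v = pr w) : v = w := by
  rw [Prod.norm_def, max_lt_iff] at hv hw
  have h1 := congrArg Prod.fst h
  have h2 := congrArg Prod.snd h
  exact Prod.ext (coe_inj hv.1 hw.1 h1) (coe_inj hv.2 hw.2 h2)

end Pool.Agent.Helper472_HK
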