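import Pool.Agent.Helper472_HK.Van

/-!
A space which near a point looks like the quotient of a linear representation of a finite abelian
group, free outside the fixed space, of codimension at least three, is not locally Euclidean there.
-/

set_option autoImplicit false
set_option linter.unusedSectionVars false

namespace Pool.Agent.Helper472_HK

open Pool.Agent.Helper534.LS Set Topology Module Metric

variable {E : Type} [NormedAddCommGroup E] [NormedSpace ℝ E] [FiniteDimensional ℝ E]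
variable {G : Type} [CommGroup G] [Finite G] [Nontrivial G] {ρ : G →* (E ≃L[ℝ] E)}
variable {Q : Type} [TopologicalSpace Q]

/-- `u` identifies the ball of radius `r₀` modulo `G` with an open subset of `Q`. -/
structure LQ (ρ : G →* (E ≃L[ℝ] E)) (u : E → Q) (r₀ : ℝ) : Prop where
  pos : 0 < r₀
  nrm : ∀ g x, ‖ρ g x‖ = ‖x‖
  cont : ContinuousOn u (ball 0 r₀)
  eq : ∀ x y, ‖x‖ < r₀ → ‖y‖ < r₀ → (u x = u y ↔ ∃ g, ρ g x = y)
  opn : ∀ U : Set E, IsOpen U → U ⊆ ball 0 r₀ → IsOpen (u '' U)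

section Euc

variable {V : Type} [NormedAddCommGroup V] [NormedSpace ℝ V] [FiniteDimensional ℝ V]

theorem scal_bound {w : V} {R t : ℝ} (hw : ‖w‖ < R) (ht0 : 0 ≤ t) (ht1 : t ≤ 1) :
    ‖((1 - t) * (R / (1 + ‖w‖)) + t) • w‖ < R := by
  have hn : 0 ≤ ‖w‖ := norm_nonneg w
  have hR : 0 < R := lt_of_le_of_lt hn hw
  have h1 : 0 ≤ (1 - t) * (R / (1 + ‖w‖)) + t := by
    have : 0 ≤ R / (1 + ‖w‖) := by positivity
    nlinarith
  rw [norm_smul, Real.norm_of_nonneg h1, add_mul]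
  have h2 : R / (1 + ‖w‖) * ‖w‖ < R := by
    rw [div_mul_eq_mul_div, div_lt_iff₀ (by positivity)]
    nlinarith
  have h3 : (1 - t) * (R / (1 + ‖w‖)) * ‖w‖ = (1 - t) * (R / (1 + ‖w‖) * ‖w‖) := by ring
  rw [h3]
  rcases eq_or_lt_of_le ht1 with rfl | ht
  · simpa using hw
  · have h4 : (1 - t) * (R / (1 + ‖w‖) * ‖w‖) < (1 - t) * R :=
      mul_lt_mul_of_pos_left h2 (by linarith)
    have h5 : t * ‖w‖ ≤ t * R := mul_le_mul_of_nonneg_left hw.le ht0
    linarith

theorem scal_pos {w : V} {R t : ℝ} (hR : 0 < R) (ht0 : 0 ≤ t) (ht1 : t ≤ 1) :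
    0 < (1 - t) * (R / (1 + ‖w‖)) + t := by
  have h1 : 0 < R / (1 + ‖w‖) := by positivity
  rcases eq_or_lt_of_le ht0 with rfl | ht
  · simpa using h1
  · have : 0 ≤ (1 - t) * (R / (1 + ‖w‖)) := mul_nonneg (by linarith) h1.le
    linarith

/-- the homology of a punctured coordinate ball -/
theorem vz_ball (β : OpenPartialHomeomorph Q V) (c : V) (R : ℝ) (hR : 0 < R)
    (hsub : ball c R ⊆ β.target) (n : ℕ) (hn : n + 3 ≤ finrank ℝ V) :
    VZ ↥(β.symm '' (ball c R) \ {β.symm c}) (n + 1) := by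
  have hc : c ∈ β.target := hsub (mem_ball_self hR)
  have hvz : VZ (OS (tr V) (Pu (⊤ : Submodule ℝ V))) (n + 1) :=
    vz_punctured n ⊤ (by rw [finrank_top]; exact hn)
  let Y := ↥(β.symm '' (ball c R) \ {β.symm c})
  have hY : ∀ q : Y, (q : Q) ∈ β.source ∧ ‖β q - c‖ < R ∧ β q - c ≠ 0 := by
    rintro ⟨q, ⟨z, hz, rfl⟩, hq⟩
    refine ⟨β.map_target (hsub hz), ?_, ?_⟩
    · change ‖β (β.symm z) - c‖ < R
      rw [β.right_inv (hsub hz)]
      exact mem_ball_iff_norm.1 hz
    · change β (β.symm z) - c ≠ 0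
      rw [β.right_inv (hsub hz)]
      intro h0
      exact hq (by rw [sub_eq_zero.1 h0]; rfl)
  have hmk : ∀ w : V, ‖w‖ < R → w ≠ 0 → β.symm (c + w) ∈ β.symm '' (ball c R) \ {β.symm c} := by
    intro w hw hw0
    have hmem : c + w ∈ ball c R := by
      rw [mem_ball_iff_norm, add_sub_cancel_left]
      exact hw
    refine ⟨⟨_, hmem, rfl⟩, ?_⟩
    intro h0
    have h1 : β.symm (c + w) = β.symm c := h0
    have h2 := congrArg β h1
    rw [β.right_inv (hsub hmem), β.right_inv hc] at h2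
    exact hw0 (by simpa using h2)
  have hβc : Continuous fun q : Y => β q - c :=
    (β.continuousOn.comp_continuous continuous_subtype_val (fun q => (hY q).1)).sub
      continuous_const
  have hsc : ∀ (T : Type) [TopologicalSpace T] (w : T → V), Continuous w →
      (∀ t, ‖w t‖ < R) → Continuous fun t => β.symm (c + w t) := by
    intro T _ w hw hwR
    refine β.symm.continuousOn.comp_continuous (continuous_const.add hw) (fun t => hsub ?_)
    rw [mem_ball_iff_norm, add_sub_cancel_left]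
    exact hwR t
  have hfin : ∀ w : V, w ≠ 0 → ‖(R / (1 + ‖w‖)) • w‖ < R ∧ (R / (1 + ‖w‖)) • w ≠ 0 := by
    intro w hw
    have h1 : 0 < R / (1 + ‖w‖) := by positivity
    refine ⟨?_, smul_ne_zero h1.ne' hw⟩
    rw [norm_smul, Real.norm_of_nonneg h1.le, div_mul_eq_mul_div, div_lt_iff₀ (by positivity)]
    nlinarith [norm_nonneg w]
  let f : C(Y, OS (tr V) (Pu (⊤ : Submodule ℝ V))) :=
    ⟨fun q => omk _ _ ⟨β q - c, Submodule.mem_top, (hY q).2.2⟩,
      (omk_cont _).comp (Continuous.subtype_mk hβc _)⟩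
  let g : C(OS (tr V) (Pu (⊤ : Submodule ℝ V)), Y) :=
    ⟨Quotient.lift (fun w : Pu (⊤ : Submodule ℝ V) =>
        (⟨β.symm (c + (R / (1 + ‖(w : V)‖)) • (w : V)),
          hmk _ (hfin w w.2.2).1 (hfin w w.2.2).2⟩ : Y)) (by
        rintro x y ⟨_, hxy⟩
        have : x = y := Subtype.ext hxy
        rw [this]), by
      refine Continuous.quotient_lift ?_ _
      refine Continuous.subtype_mk ?_ _
      refine hsc _ _ ?_ (fun w => (hfin w w.2.2).1)
      refine Continuous.smul ?_ continuous_subtype_val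
      refine continuous_const.div (by fun_prop) ?_
      intro w
      have := norm_nonneg (w : V)
      positivity⟩
  refine hvz.retract f g ?_
  refine ⟨⟨⟨fun p => ⟨β.symm (c + ((1 - (p.1 : ℝ)) * (R / (1 + ‖β p.2 - c‖)) + (p.1 : ℝ)) •
      (β p.2 - c)), hmk _ (scal_bound (hY p.2).2.1 p.1.2.1 p.1.2.2)
        (smul_ne_zero (scal_pos hR p.1.2.1 p.1.2.2).ne' (hY p.2).2.2)⟩, ?_⟩, ?_, ?_⟩⟩
  · refine Continuous.subtype_mk ?_ _
    refine hsc _ _ ?_ (fun p => scal_bound (hY p.2).2.1 p.1.2.1 p.1.2.2)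
    have hβ2 : Continuous fun p : unitInterval × Y => β p.2 - c := hβc.comp continuous_snd
    refine Continuous.smul ?_ hβ2
    refine Continuous.add ?_ (by fun_prop)
    refine Continuous.mul (by fun_prop) ?_
    refine continuous_const.div (continuous_const.add hβ2.norm) ?_
    intro p
    have := norm_nonneg (β p.2 - c)
    positivity
  · intro q
    apply Subtype.ext
    change β.symm _ = β.symm _
    simp
  · intro q
    apply Subtype.ext
    change β.symm _ = (q : Q)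
    simp only [Set.Icc.coe_one, sub_self, zero_mul, zero_add, one_smul, add_sub_cancel]
    exact β.left_inv (hY q).1

end Euc

variable {V : Type} [NormedAddCommGroup V] [NormedSpace ℝ V] [FiniteDimensional ℝ V]

theorem not_chart {P : E →L[ℝ] E} (hP : PD ρ P)
    (hd : 2 ≤ finrank ℝ (LinearMap.ker (P : E →ₗ[ℝ] E)))
    (hV : finrank ℝ (LinearMap.range (P : E →ₗ[ℝ] E)) + 3 ≤ finrank ℝ V)
    {u : E → Q} {r₀ : ℝ} (h : LQ ρ u r₀) (β : OpenPartialHomeomorph Q V)
    (hβ : u 0 ∈ β.source) : False := by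
  have h00 : ‖(0 : E)‖ < r₀ := by rw [norm_zero]; exact h.pos
  -- the coordinate ball
  have hO : IsOpen (u '' (ball 0 r₀) ∩ β.source) :=
    (h.opn _ isOpen_ball le_rfl).inter β.open_source
  have hmem0 : u 0 ∈ u '' (ball 0 r₀) ∩ β.source := ⟨⟨0, mem_ball_self h.pos, rfl⟩, hβ⟩
  have hO2 : IsOpen (β.target ∩ β.symm ⁻¹' (u '' (ball 0 r₀) ∩ β.source)) :=
    β.isOpen_inter_preimage_symm hO
  have hc0 : β (u 0) ∈ β.target ∩ β.symm ⁻¹' (u '' (ball 0 r₀) ∩ β.source) := by
    refine ⟨β.map_source hβ, ?_⟩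
    change β.symm (β (u 0)) ∈ u '' (ball 0 r₀) ∩ β.source
    rw [β.left_inv hβ]
    exact hmem0
  obtain ⟨R, hR, hball⟩ := Metric.isOpen_iff.1 hO2 _ hc0
  set c := β (u 0) with hc
  have hsub : ball c R ⊆ β.target := fun z hz => (hball hz).1
  set D : Set Q := β.symm '' (ball c R) with hD
  have hDo : IsOpen D := β.symm.isOpen_image_of_subset_source isOpen_ball hsub
  have hDu : D ⊆ u '' (ball 0 r₀) := by
    rintro _ ⟨z, hz, rfl⟩
    exact (hball hz).2.1
  have hsc : β.symm c = u 0 := β.left_inv hβ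
  have h0D : u 0 ∈ D := ⟨c, mem_ball_self hR, hsc⟩
  -- the small ball
  have hcont0 : ContinuousAt u 0 := h.cont.continuousAt (isOpen_ball.mem_nhds (mem_ball_self h.pos))
  obtain ⟨r', hr', hr'D⟩ := Metric.mem_nhds_iff.1 (hcont0 (hDo.mem_nhds h0D))
  set r := min r' r₀ with hr
  have hr0 : 0 < r := lt_min hr' h.pos
  have hrD : ∀ x : E, ‖x‖ < r → u x ∈ D := by
    intro x hx
    apply hr'D
    rw [mem_ball_zero_iff]
    exact lt_of_lt_of_le hx (min_le_left _ _)
  have hrr : r ≤ r₀ := min_le_right _ _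
  -- homology of the punctured coordinate ball
  have hvz : VZ ↥(D \ {u 0}) (finrank ℝ (LinearMap.range (P : E →ₗ[ℝ] E)) + 1) := by
    have := vz_ball β c R hR hsub (finrank ℝ (LinearMap.range (P : E →ₗ[ℝ] E))) hV
    rw [hsc] at this
    exact this
  have hnz := nz_top hP hd
  -- scaling
  have hcs : ∀ x : E, x ≠ 0 → ‖(r / (1 + ‖x‖)) • x‖ < r ∧ (r / (1 + ‖x‖)) • x ≠ 0 := by
    intro w hw
    have h1 : 0 < r / (1 + ‖w‖) := by positivity
    refine ⟨?_, smul_ne_zero h1.ne' hw⟩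
    rw [norm_smul, Real.norm_of_nonneg h1.le, div_mul_eq_mul_div, div_lt_iff₀ (by positivity)]
    nlinarith [norm_nonneg w]
  have hne : ∀ x : E, ‖x‖ < r₀ → x ≠ 0 → u x ≠ u 0 := by
    intro x hx hx0 hux
    obtain ⟨g, hg⟩ := (h.eq x 0 hx h00).1 hux
    exact hx0 ((ρ g).injective (by rw [hg, map_zero]))
  let X := OS ρ (Pu (⊤ : Submodule ℝ E))
  let Y := ↥(D \ {u 0})
  have hinv : Inv ρ (Pu (⊤ : Submodule ℝ E)) := fun g x hx =>
    ⟨Submodule.mem_top, fun h0 => hx.2 ((ρ g).injective (by rw [h0, map_zero]))⟩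
  let f : C(X, Y) :=
    ⟨Quotient.lift (fun x : Pu (⊤ : Submodule ℝ E) =>
        (⟨u ((r / (1 + ‖(x : E)‖)) • (x : E)), hrD _ (hcs x x.2.2).1,
          hne _ ((hcs x x.2.2).1.trans_le hrr) (hcs x x.2.2).2⟩ : Y)) (by
        rintro x y ⟨g, hg⟩
        apply Subtype.ext
        refine (h.eq _ _ ((hcs x x.2.2).1.trans_le hrr) ((hcs y y.2.2).1.trans_le hrr)).2 ⟨g, ?_⟩
        rw [map_smul, hg, ← hg, h.nrm]), by
      refine Continuous.quotient_lift ?_ _
      refine Continuous.subtype_mk ?_ _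
      refine h.cont.comp_continuous ?_ (fun x => ?_)
      · refine Continuous.smul ?_ continuous_subtype_val
        refine continuous_const.div (by fun_prop) ?_
        intro w
        have := norm_nonneg (w : E)
        positivity
      · rw [mem_ball_zero_iff]
        exact (hcs x x.2.2).1.trans_le hrr⟩
  have hch : ∀ q : Y, ∃ x : E, ‖x‖ < r₀ ∧ x ≠ 0 ∧ u x = q := by
    rintro ⟨q, hq, hq0⟩
    obtain ⟨x, hx, rfl⟩ := hDu hq
    refine ⟨x, mem_ball_zero_iff.1 hx, ?_, rfl⟩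
    rintro rfl
    exact hq0 rfl
  choose ch hch1 hch2 hch3 using hch
  have hgc : Continuous (fun q : Y => (omk ρ _ ⟨ch q, Submodule.mem_top, hch2 q⟩ : X)) := by
    refine continuous_def.2 fun W hW => ?_
    have hW2 : IsOpen {x : E | ‖x‖ < r₀ ∧ ∃ hx : x ≠ 0, (omk ρ _ ⟨x, Submodule.mem_top, hx⟩ : X) ∈ W} := by
      have h1 : {x : E | ‖x‖ < r₀ ∧ ∃ hx : x ≠ 0, (omk ρ _ ⟨x, Submodule.mem_top, hx⟩ : X) ∈ W} =
          ball 0 r₀ ∩ (Subtype.val '' (omk ρ (Pu (⊤ : Submodule ℝ E)) ⁻¹' W)) := by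
        ext x
        constructor
        · rintro ⟨hx, hx0, hxW⟩
          exact ⟨mem_ball_zero_iff.2 hx, ⟨_, hxW, rfl⟩⟩
        · rintro ⟨hx, y, hy, rfl⟩
          exact ⟨mem_ball_zero_iff.1 hx, y.2.2, hy⟩
      rw [h1]
      refine isOpen_ball.inter ?_
      have h2 : IsOpen (Pu (⊤ : Submodule ℝ E)) := by
        have : Pu (⊤ : Submodule ℝ E) = {0}ᶜ := by
          ext x
          constructor
          · rintro ⟨-, hx⟩
            exact hx
          · intro hx
            exact ⟨Submodule.mem_top, hx⟩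
        rw [this]
        exact isOpen_compl_singleton
      exact h2.isOpenMap_subtype_val _ (hW.preimage (omk_cont _))
    have h3 := h.opn _ hW2 (fun x hx => mem_ball_zero_iff.2 hx.1)
    convert h3.preimage (continuous_subtype_val : Continuous (Subtype.val : Y → Q)) using 1
    ext q
    constructor
    · intro hq
      exact ⟨ch q, ⟨hch1 q, hch2 q, hq⟩, hch3 q⟩
    · rintro ⟨x, ⟨hx, hx0, hxW⟩, hxq⟩
      change (omk ρ _ ⟨ch q, Submodule.mem_top, hch2 q⟩ : X) ∈ W
      have h4 : (omk ρ _ ⟨ch q, Submodule.mem_top, hch2 q⟩ : X) =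
          omk ρ (Pu (⊤ : Submodule ℝ E)) ⟨x, Submodule.mem_top, hx0⟩ := by
        refine omk_eq.2 ?_
        refine (h.eq _ _ (hch1 q) hx).1 ?_
        rw [hch3, hxq]
      rw [h4]
      exact hxW
  let g : C(Y, X) := ⟨_, hgc⟩
  refine not_factor hnz hvz f g ?_
  let F : C(unitInterval × Pu (⊤ : Submodule ℝ E), X) :=
    ⟨fun p => omk ρ (Pu (⊤ : Submodule ℝ E)) ⟨((1 - (p.1 : ℝ)) * (r / (1 + ‖(p.2 : E)‖)) + (p.1 : ℝ)) • (p.2 : E),
      Submodule.mem_top, smul_ne_zero (scal_pos hr0 p.1.2.1 p.1.2.2).ne' p.2.2.2⟩,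
      (omk_cont _).comp (by
        refine Continuous.subtype_mk ?_ _
        refine Continuous.smul ?_ (by fun_prop)
        refine Continuous.add ?_ (by fun_prop)
        refine Continuous.mul (by fun_prop) ?_
        refine continuous_const.div (by fun_prop) ?_
        intro p
        have := norm_nonneg (p.2 : E)
        positivity)⟩
  refine homotopic_of hinv F ?_ _ _ ?_ ?_
  · rintro t x y ⟨g, hg⟩
    refine omk_eq.2 ⟨g, ?_⟩
    change ρ g (((1 - (t : ℝ)) * (r / (1 + ‖(x : E)‖)) + (t : ℝ)) • (x : E)) =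
      ((1 - (t : ℝ)) * (r / (1 + ‖(y : E)‖)) + (t : ℝ)) • (y : E)
    rw [map_smul, hg, ← hg, h.nrm]
  · intro x
    change (omk ρ _ ⟨ch (f (omk ρ _ x)), Submodule.mem_top, hch2 _⟩ : X) = omk ρ _ _
    refine omk_eq.2 ?_
    refine (h.eq _ _ (hch1 _) ?_).1 ?_
    · change ‖((1 - ((0 : unitInterval) : ℝ)) * (r / (1 + ‖(x : E)‖)) + ((0 : unitInterval) : ℝ)) •
        (x : E)‖ < r₀
      rw [Set.Icc.coe_zero, sub_zero, one_mul, add_zero]
      exact (hcs x x.2.2).1.trans_le hrr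
    · rw [hch3]
      change u ((r / (1 + ‖(x : E)‖)) • (x : E)) = u (((1 - ((0 : unitInterval) : ℝ)) *
        (r / (1 + ‖(x : E)‖)) + ((0 : unitInterval) : ℝ)) • (x : E))
      rw [Set.Icc.coe_zero, sub_zero, one_mul, add_zero]
  · intro x
    change omk ρ _ x = omk ρ _ _
    congr 1
    apply Subtype.ext
    change (x : E) = ((1 - ((1 : unitInterval) : ℝ)) *
        (r / (1 + ‖(x : E)‖)) + ((1 : unitInterval) : ℝ)) • (x : E)
    rw [Set.Icc.coe_one, sub_self, zero_mul, zero_add, one_smul]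

end Pool.Agent.Helper472_HK
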