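import Pool.Agent.Helper472_HK.H1

/-!
Orbit spaces of invariant subsets of a normed space with a linear group action, and the
suspension isomorphisms for punctured spaces.
-/

set_option autoImplicit false
set_option linter.unusedSectionVars false

namespace Pool.Agent.Helper472_HK

open Pool.Agent.Helper534.LS Set Topology

variable {E : Type} [NormedAddCommGroup E] [NormedSpace ℝ E]
variable {G : Type} [Group G] (ρ : G →* (E ≃L[ℝ] E))

theorem rho_mul (g h : G) (x : E) : ρ (g * h) x = ρ g (ρ h x) := by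
  rw [map_mul]
  rfl

theorem rho_one (x : E) : ρ 1 x = x := by
  rw [map_one]
  rfl

variable {ρ} in
theorem rho_inv (g : G) (x : E) : ρ g⁻¹ (ρ g x) = x := by
  rw [← rho_mul, inv_mul_cancel, rho_one]

variable {ρ} in
theorem rho_inv' (g : G) (x : E) : ρ g (ρ g⁻¹ x) = x := by
  rw [← rho_mul, mul_inv_cancel, rho_one]

/-- the orbit relation on a subset `S` -/
def orel (S : Set E) : Setoid S where
  r x y := ∃ g : G, ρ g x = (y : E)
  iseqv := by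
    refine ⟨fun x => ⟨1, rho_one ρ _⟩, ?_, ?_⟩
    · rintro x y ⟨g, hg⟩
      refine ⟨g⁻¹, ?_⟩
      rw [← hg, rho_inv]
    · rintro x y z ⟨g, hg⟩ ⟨h, hh⟩
      refine ⟨h * g, ?_⟩
      rw [rho_mul, hg, hh]

/-- the orbit space of `S` -/
def OS (S : Set E) : Type := Quotient (orel ρ S)

instance (S : Set E) : TopologicalSpace (OS ρ S) :=
  inferInstanceAs (TopologicalSpace (Quotient (orel ρ S)))

/-- the projection -/
def omk (S : Set E) : S → OS ρ S := Quotient.mk (orel ρ S)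

/-- `S` is invariant -/
def Inv (S : Set E) : Prop := ∀ (g : G) (x : E), x ∈ S → ρ g x ∈ S

variable {ρ}

theorem omk_eq {S : Set E} {x y : S} : omk ρ S x = omk ρ S y ↔ ∃ g : G, ρ g x = (y : E) :=
  Quotient.eq (r := orel ρ S)

theorem omk_cont (S : Set E) : Continuous (omk ρ S) := continuous_quotient_mk'

theorem omk_surj (S : Set E) : Function.Surjective (omk ρ S) := Quotient.mk_surjective

theorem omk_open {S : Set E} (hS : Inv ρ S) : IsOpenMap (omk ρ S) := by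
  intro U hU
  refine (isQuotientMap_quotient_mk' (s := orel ρ S)).isOpen_preimage.1 ?_
  have : (Quotient.mk (orel ρ S)) ⁻¹' (omk ρ S '' U) =
      ⋃ g : G, (fun x : S => (⟨ρ g x, hS g x x.2⟩ : S)) ⁻¹' U := by
    ext x
    simp only [mem_preimage, mem_image, mem_iUnion]
    constructor
    · rintro ⟨y, hy, hyx⟩
      obtain ⟨g, hg⟩ := omk_eq.1 hyx
      refine ⟨g⁻¹, ?_⟩
      have : (⟨ρ g⁻¹ x, hS g⁻¹ x x.2⟩ : S) = y := by
        apply Subtype.ext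
        change ρ g⁻¹ (x : E) = y
        rw [← hg, rho_inv]
      rw [this]
      exact hy
    · rintro ⟨g, hg⟩
      refine ⟨_, hg, ?_⟩
      exact omk_eq.2 ⟨g⁻¹, rho_inv _ _⟩
  have h2 : IsOpen ((Quotient.mk (orel ρ S)) ⁻¹' (omk ρ S '' U)) := by
    rw [this]
    refine isOpen_iUnion fun g => hU.preimage ?_
    refine Continuous.subtype_mk ?_ _
    exact (ρ g).continuous.comp continuous_subtype_val
  exact h2

theorem omk_oq {S : Set E} (hS : Inv ρ S) : IsOpenQuotientMap (omk ρ S) :=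
  ⟨omk_surj S, omk_cont S, omk_open hS⟩

/-- maps of orbit spaces -/
def omap {S T : Set E} (f : C(S, T))
    (h : ∀ x y : S, (∃ g : G, ρ g x = (y : E)) → ∃ g : G, ρ g (f x) = (f y : E)) :
    C(OS ρ S, OS ρ T) where
  toFun := Quotient.lift (fun x => omk ρ T (f x)) (fun x y hxy => omk_eq.2 (h x y hxy))
  continuous_toFun := Continuous.quotient_lift ((omk_cont T).comp f.continuous) _

theorem omap_mk {S T : Set E} (f : C(S, T))
    (h : ∀ x y : S, (∃ g : G, ρ g x = (y : E)) → ∃ g : G, ρ g (f x) = (f y : E)) (x : S) :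
    omap f h (omk ρ S x) = omk ρ T (f x) := rfl

/-- An equivariant homotopy gives a homotopy of maps into a space on which the target is constant
on orbits. -/
theorem homotopic_of {S : Set E} (hS : Inv ρ S) {Z : Type} [TopologicalSpace Z]
    (F : C(unitInterval × S, Z))
    (hF : ∀ t, ∀ x y : S, (∃ g : G, ρ g x = (y : E)) → F (t, x) = F (t, y))
    (f₀ f₁ : C(OS ρ S, Z)) (h0 : ∀ x, f₀ (omk ρ S x) = F (0, x))
    (h1 : ∀ x, f₁ (omk ρ S x) = F (1, x)) : f₀.Homotopic f₁ := by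
  let fq : C(unitInterval × S, unitInterval × OS ρ S) :=
    ⟨Prod.map (id : unitInterval → unitInterval) (omk ρ S), continuous_id.prodMap (omk_cont S)⟩
  have hq : IsQuotientMap fq :=
    (IsOpenQuotientMap.id.prodMap (omk_oq hS)).isQuotientMap
  have hlift : Function.FactorsThrough F fq := by
    rintro ⟨t, x⟩ ⟨t', y⟩ h
    have h1 : t = t' := congrArg Prod.fst h
    subst h1
    exact hF t x y (omk_eq.1 (congrArg Prod.snd h))
  let H : C(unitInterval × OS ρ S, Z) := hq.lift F hlift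
  have hH : ∀ t x, H (t, omk ρ S x) = F (t, x) := by
    intro t x
    exact DFunLike.congr_fun (hq.lift_comp F hlift) (t, x)
  refine ⟨⟨H, ?_, ?_⟩⟩
  · intro q
    obtain ⟨x, rfl⟩ := omk_surj S q
    rw [h0]
    exact hH 0 x
  · intro q
    obtain ⟨x, rfl⟩ := omk_surj S q
    rw [h1]
    exact hH 1 x

theorem contr_of_star {S : Set E} (hS : Inv ρ S) (e : E) (he : e ∈ S) (hfix : ∀ g, ρ g e = e)
    (hstar : ∀ x ∈ S, ∀ t : ℝ, 0 ≤ t → t ≤ 1 → (1 - t) • x + t • e ∈ S) :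
    ContractibleSpace (OS ρ S) := by
  let F : C(unitInterval × S, OS ρ S) :=
    ⟨fun p => omk ρ S ⟨(1 - (p.1 : ℝ)) • (p.2 : E) + (p.1 : ℝ) • e,
      hstar _ p.2.2 _ p.1.2.1 p.1.2.2⟩, (omk_cont S).comp (by
        refine Continuous.subtype_mk ?_ _
        fun_prop)⟩
  have h := homotopic_of hS F ?_ (ContinuousMap.id (OS ρ S))
    (ContinuousMap.const _ (omk ρ S ⟨e, he⟩)) ?_ ?_
  · rw [contractible_iff_id_nullhomotopic]
    exact ⟨_, h⟩
  · rintro t x y ⟨g, hg⟩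
    refine omk_eq.2 ⟨g, ?_⟩
    change ρ g ((1 - (t : ℝ)) • (x : E) + (t : ℝ) • e) = (1 - (t : ℝ)) • (y : E) + (t : ℝ) • e
    rw [map_add, map_smul, map_smul, hfix, hg]
  · intro x
    change omk ρ S x = omk ρ S _
    congr 1
    apply Subtype.ext
    simp
  · intro x
    change omk ρ S _ = omk ρ S _
    congr 1
    apply Subtype.ext
    simp

/-- the map of orbit spaces induced by an inclusion -/
def oemb {A B : Set E} (h : A ⊆ B) : C(OS ρ A, OS ρ B) :=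
  omap ⟨Set.inclusion h, continuous_inclusion h⟩ (fun _ _ hxy => hxy)

theorem oemb_mk {A B : Set E} (h : A ⊆ B) (x : A) :
    oemb (ρ := ρ) h (omk ρ A x) = omk ρ B ⟨x, h x.2⟩ := rfl

theorem oemb_inj {A B : Set E} (h : A ⊆ B) : Function.Injective (oemb (ρ := ρ) h) := by
  intro p q hpq
  obtain ⟨x, rfl⟩ := omk_surj A p
  obtain ⟨y, rfl⟩ := omk_surj A q
  rw [oemb_mk, oemb_mk] at hpq
  obtain ⟨g, hg⟩ := omk_eq.1 hpq
  exact omk_eq.2 ⟨g, hg⟩

theorem oemb_open {A B : Set E} (h : A ⊆ B) (hB : Inv ρ B) {O : Set E}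
    (hO : IsOpen O) (hAO : A = B ∩ O) : IsOpenMap (oemb (ρ := ρ) h) := by
  intro U hU
  have h1 : oemb (ρ := ρ) h '' U = omk ρ B '' (Set.inclusion h '' (omk ρ A ⁻¹' U)) := by
    ext q
    constructor
    · rintro ⟨p, hp, rfl⟩
      obtain ⟨x, rfl⟩ := omk_surj A p
      exact ⟨_, ⟨x, hp, rfl⟩, rfl⟩
    · rintro ⟨_, ⟨x, hx, rfl⟩, rfl⟩
      exact ⟨_, hx, rfl⟩
  rw [h1]
  refine omk_open hB _ ?_
  have h2 : IsOpenMap (Set.inclusion h) := by
    intro V hV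
    obtain ⟨W, hW, rfl⟩ := isOpen_induced_iff.1 hV
    refine isOpen_induced_iff.2 ⟨W ∩ O, hW.inter hO, ?_⟩
    ext x
    constructor
    · rintro ⟨hx1, hx2⟩
      exact ⟨⟨x, hAO ▸ ⟨x.2, hx2⟩⟩, hx1, rfl⟩
    · rintro ⟨y, hy, rfl⟩
      exact ⟨hy, (hAO ▸ y.2 : (y : E) ∈ B ∩ O).2⟩
  exact h2 _ (hU.preimage (omk_cont A))

/-- the orbit space of a relatively open invariant subset as a subspace -/
noncomputable def oembHomeo {A B : Set E} (h : A ⊆ B) (hB : Inv ρ B) {O : Set E}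
    (hO : IsOpen O) (hAO : A = B ∩ O) : OS ρ A ≃ₜ Set.range (oemb (ρ := ρ) h) :=
  (IsOpenEmbedding.of_continuous_injective_isOpenMap (oemb (ρ := ρ) h).continuous (oemb_inj h)
    (oemb_open h hB hO hAO)).isEmbedding.toHomeomorph

theorem range_oemb {A B : Set E} (h : A ⊆ B) (hA : Inv ρ A) (q : B) :
    omk ρ B q ∈ Set.range (oemb (ρ := ρ) h) ↔ (q : E) ∈ A := by
  constructor
  · rintro ⟨p, hp⟩
    obtain ⟨x, rfl⟩ := omk_surj A p
    rw [oemb_mk] at hp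
    obtain ⟨g, hg⟩ := omk_eq.1 hp
    rw [← hg]
    exact hA g _ x.2
  · intro hq
    exact ⟨omk ρ A ⟨q, hq⟩, rfl⟩

/-! ### Suspension -/

section Susp

variable (ρ)

/-- the nonzero vectors of a subspace -/
def Pu (M : Submodule ℝ E) : Set E := {x | x ∈ M ∧ x ≠ 0}

/-- the complement of the closed ray through `-e` -/
def Ray (e : E) : Set E := {x | ∃ s : ℝ, 0 ≤ s ∧ x = -(s • e)}

theorem isClosed_ray {e : E} (he : e ≠ 0) : IsClosed (Ray e) := by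
  have h1 : Ray e = (fun s : ℝ => -(s • e)) '' Set.Ici 0 := by
    ext x
    constructor
    · rintro ⟨s, hs, rfl⟩
      exact ⟨s, hs, rfl⟩
    · rintro ⟨s, hs, rfl⟩
      exact ⟨s, hs, rfl⟩
  rw [h1]
  have h2 : IsClosedEmbedding (fun s : ℝ => s • e) := isClosedEmbedding_smul_left he
  have h3 : IsClosedEmbedding (fun s : ℝ => -(s • e)) :=
    (Homeomorph.neg E).isClosedEmbedding.comp h2
  exact h3.isClosedMap _ isClosed_Ici

variable {ρ}

/-- the data of the suspension step -/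
structure SD (ρ : G →* (E ≃L[ℝ] E)) (M : Submodule ℝ E) (e : E) (l : E →L[ℝ] ℝ) : Prop where
  inv : ∀ g x, x ∈ M → ρ g x ∈ M
  mem : e ∈ M
  fix : ∀ g, ρ g e = e
  le : l e = 1
  lg : ∀ g x, l (ρ g x) = l x

variable {M : Submodule ℝ E} {e : E} {l : E →L[ℝ] ℝ}

theorem SD.ne (h : SD ρ M e l) : e ≠ 0 := by
  rintro rfl
  have := h.le
  simp at this

theorem SD.neg (h : SD ρ M e l) : SD ρ M (-e) (-l) where
  inv := h.inv
  mem := M.neg_mem h.mem
  fix g := by rw [map_neg, h.fix]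
  le := by simp [h.le]
  lg g x := by simp [h.lg]

theorem SD.invPu (h : SD ρ M e l) : Inv ρ (Pu M) := by
  rintro g x ⟨hx, hx0⟩
  exact ⟨h.inv g x hx, fun h0 => hx0 ((ρ g).injective (by rw [h0, map_zero]))⟩

theorem SD.invA (h : SD ρ M e l) : Inv ρ (Pu M ∩ (Ray e)ᶜ) := by
  rintro g x ⟨hx, hx0⟩
  refine ⟨h.invPu g x hx, ?_⟩
  rintro ⟨s, hs, hxs⟩
  apply hx0
  refine ⟨s, hs, ?_⟩
  apply (ρ g).injective
  rw [hxs, map_neg, map_smul, h.fix]

theorem SD.contrA (h : SD ρ M e l) : ContractibleSpace (OS ρ (Pu M ∩ (Ray e)ᶜ)) := by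
  refine contr_of_star h.invA e ⟨⟨h.mem, h.ne⟩, ?_⟩ h.fix ?_
  · rintro ⟨s, hs, hes⟩
    have := congrArg l hes
    rw [map_neg, map_smul, h.le, smul_eq_mul, mul_one] at this
    linarith
  · rintro x ⟨⟨hxM, hx0⟩, hxr⟩ t ht0 ht1
    have key : (1 - t) • x + t • e ∉ Ray e := by
      rintro ⟨s, hs, hxs⟩
      rcases eq_or_lt_of_le ht1 with rfl | ht
      · have := congrArg l hxs
        rw [sub_self, zero_smul, zero_add, one_smul, map_neg, map_smul, h.le, smul_eq_mul,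
          mul_one] at this
        linarith
      · apply hxr
        refine ⟨(1 - t)⁻¹ * (s + t), mul_nonneg (inv_nonneg.2 (by linarith)) (by linarith), ?_⟩
        have h1 : (1 - t) • x = -((s + t) • e) := by
          rw [add_smul, neg_add, ← hxs]
          abel
        have h2 : x = (1 - t)⁻¹ • ((1 - t) • x) := by
          rw [smul_smul, inv_mul_cancel₀ (by linarith), one_smul]
        rw [h2, h1, smul_neg, smul_smul]
    refine ⟨⟨M.add_mem (M.smul_mem _ hxM) (M.smul_mem _ h.mem), ?_⟩, key⟩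
    intro h0
    apply key
    exact ⟨0, le_refl _, by rw [h0]; simp⟩

/-- the intersection of the two contractible pieces -/
theorem mem_inter_iff' (h : SD ρ M e l) (x : E) : x ∈ (Pu M ∩ (Ray e)ᶜ) ∩ (Pu M ∩ (Ray (-e))ᶜ) ↔
    x ∈ M ∧ x - l x • e ≠ 0 := by
  constructor
  · rintro ⟨⟨⟨hxM, hx0⟩, hx1⟩, ⟨-, hx2⟩⟩
    refine ⟨hxM, fun h0 => ?_⟩
    have hx : x = l x • e := sub_eq_zero.1 h0
    rcases le_total 0 (l x) with hl | hl
    · exact hx2 ⟨l x, hl, by rw [smul_neg, neg_neg]; exact hx⟩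
    · exact hx1 ⟨-l x, by linarith, by rw [neg_smul, neg_neg]; exact hx⟩
  · rintro ⟨hxM, hx⟩
    have hx0 : x ≠ 0 := by
      rintro rfl
      simp at hx
    refine ⟨⟨⟨hxM, hx0⟩, ?_⟩, ⟨⟨hxM, hx0⟩, ?_⟩⟩
    · rintro ⟨s, hs, rfl⟩
      apply hx
      rw [map_neg, map_smul, h.le, smul_eq_mul, mul_one, neg_smul, sub_self]
    · rintro ⟨s, hs, rfl⟩
      apply hx
      rw [smul_neg, neg_neg, map_smul, h.le, smul_eq_mul, mul_one, sub_self]

/-- the retraction to the hyperplane -/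
def toKer (h : SD ρ M e l) :
    C(↥((Pu M ∩ (Ray e)ᶜ) ∩ (Pu M ∩ (Ray (-e))ᶜ)), ↥(Pu (M ⊓ LinearMap.ker (l : E →ₗ[ℝ] ℝ)))) :=
  ⟨fun x => ⟨(x : E) - l x • e, by
    have hx := (mem_inter_iff' h x).1 x.2
    refine ⟨⟨M.sub_mem hx.1 (M.smul_mem _ h.mem), ?_⟩, hx.2⟩
    change l ((x : E) - l x • e) = 0
    rw [map_sub, map_smul, h.le, smul_eq_mul, mul_one, sub_self]⟩, by fun_prop⟩

/-- the inclusion of the hyperplane -/
def ofKer (h : SD ρ M e l) :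
    C(↥(Pu (M ⊓ LinearMap.ker (l : E →ₗ[ℝ] ℝ))), ↥((Pu M ∩ (Ray e)ᶜ) ∩ (Pu M ∩ (Ray (-e))ᶜ))) :=
  ⟨fun x => ⟨x, by
    obtain ⟨⟨hxM, hxl⟩, hx0⟩ := x.2
    have hxl' : l x = 0 := hxl
    refine (mem_inter_iff' h x).2 ⟨hxM, ?_⟩
    rw [hxl', zero_smul, sub_zero]
    exact hx0⟩, by fun_prop⟩

theorem toKer_compat (h : SD ρ M e l) (x y : ↥((Pu M ∩ (Ray e)ᶜ) ∩ (Pu M ∩ (Ray (-e))ᶜ)))
    (hxy : ∃ g : G, ρ g x = (y : E)) : ∃ g : G, ρ g (toKer h x) = (toKer h y : E) := by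
  obtain ⟨g, hg⟩ := hxy
  refine ⟨g, ?_⟩
  change ρ g ((x : E) - l x • e) = (y : E) - l y • e
  rw [map_sub, map_smul, h.fix, hg, ← hg, h.lg]

theorem ofKer_compat (h : SD ρ M e l) (x y : ↥(Pu (M ⊓ LinearMap.ker (l : E →ₗ[ℝ] ℝ))))
    (hxy : ∃ g : G, ρ g x = (y : E)) : ∃ g : G, ρ g (ofKer h x) = (ofKer h y : E) := hxy

theorem SD.invI (h : SD ρ M e l) : Inv ρ ((Pu M ∩ (Ray e)ᶜ) ∩ (Pu M ∩ (Ray (-e))ᶜ)) :=
  fun g x hx => ⟨h.invA g x hx.1, h.neg.invA g x hx.2⟩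

theorem nz_inter (h : SD ρ M e l) {n : ℕ}
    (hn : NZ (OS ρ (Pu (M ⊓ LinearMap.ker (l : E →ₗ[ℝ] ℝ)))) n) :
    NZ (OS ρ ((Pu M ∩ (Ray e)ᶜ) ∩ (Pu M ∩ (Ray (-e))ᶜ))) n := by
  refine hn.retract (omap (ofKer h) (ofKer_compat h)) (omap (toKer h) (toKer_compat h)) ?_
  have : (omap (toKer h) (toKer_compat h)).comp (omap (ofKer h) (ofKer_compat h)) =
      ContinuousMap.id _ := by
    ext q
    obtain ⟨x, rfl⟩ := omk_surj _ q
    change omk ρ _ (toKer h (ofKer h x)) = omk ρ _ x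
    congr 1
    apply Subtype.ext
    change (x : E) - l x • e = x
    have : l x = 0 := x.2.1.2
    rw [this, zero_smul, sub_zero]
  rw [this]

theorem vz_inter (h : SD ρ M e l) {n : ℕ}
    (hn : VZ (OS ρ (Pu (M ⊓ LinearMap.ker (l : E →ₗ[ℝ] ℝ)))) n) :
    VZ (OS ρ ((Pu M ∩ (Ray e)ᶜ) ∩ (Pu M ∩ (Ray (-e))ᶜ))) n := by
  refine hn.retract (omap (toKer h) (toKer_compat h)) (omap (ofKer h) (ofKer_compat h)) ?_
  let S := (Pu M ∩ (Ray e)ᶜ) ∩ (Pu M ∩ (Ray (-e))ᶜ)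
  have hmem : ∀ (x : S) (t : ℝ), (x : E) - (t * l x) • e ∈ S := by
    intro x t
    refine (mem_inter_iff' h _).2 ⟨M.sub_mem x.2.1.1.1 (M.smul_mem _ h.mem), ?_⟩
    have hx := ((mem_inter_iff' h x).1 x.2).2
    rw [map_sub, map_smul, h.le, smul_eq_mul, mul_one, sub_smul]
    convert hx using 1
    abel
  let F : C(unitInterval × S, OS ρ S) :=
    ⟨fun p => omk ρ S ⟨(p.2 : E) - ((1 - (p.1 : ℝ)) * l p.2) • e, hmem _ _⟩,
      (omk_cont S).comp (by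
        refine Continuous.subtype_mk ?_ _
        fun_prop)⟩
  refine homotopic_of h.invI F ?_ _ _ ?_ ?_
  · rintro t x y ⟨g, hg⟩
    refine omk_eq.2 ⟨g, ?_⟩
    change ρ g ((x : E) - ((1 - (t : ℝ)) * l x) • e) = (y : E) - ((1 - (t : ℝ)) * l y) • e
    rw [map_sub, map_smul, h.fix, hg, ← hg, h.lg]
  · intro x
    change omk ρ S _ = omk ρ S _
    congr 1
    apply Subtype.ext
    change (x : E) - l x • e = (x : E) - ((1 - ((0 : unitInterval) : ℝ)) * l x) • e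
    simp
  · intro x
    change omk ρ S x = omk ρ S _
    congr 1
    apply Subtype.ext
    change (x : E) = (x : E) - ((1 - ((1 : unitInterval) : ℝ)) * l x) • e
    simp

/-- the two open sets covering the punctured orbit space -/
theorem SD.cover (h : SD ρ M e l) : ∃ U V : Set (OS ρ (Pu M)), IsOpen U ∧ IsOpen V ∧
    (∀ x, x ∈ U ∨ x ∈ V) ∧ Nonempty (OS ρ (Pu M ∩ (Ray e)ᶜ) ≃ₜ U) ∧
    Nonempty (OS ρ (Pu M ∩ (Ray (-e))ᶜ) ≃ₜ V) ∧
    Nonempty (OS ρ ((Pu M ∩ (Ray e)ᶜ) ∩ (Pu M ∩ (Ray (-e))ᶜ)) ≃ₜ ↥(U ∩ V)) := by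
  have hA : Pu M ∩ (Ray e)ᶜ ⊆ Pu M := inter_subset_left
  have hB : Pu M ∩ (Ray (-e))ᶜ ⊆ Pu M := inter_subset_left
  have hI : (Pu M ∩ (Ray e)ᶜ) ∩ (Pu M ∩ (Ray (-e))ᶜ) ⊆ Pu M := fun x hx => hx.1.1
  have oA : IsOpen ((Ray e)ᶜ) := (isClosed_ray h.ne).isOpen_compl
  have oB : IsOpen ((Ray (-e))ᶜ) := (isClosed_ray h.neg.ne).isOpen_compl
  have hIeq : (Pu M ∩ (Ray e)ᶜ) ∩ (Pu M ∩ (Ray (-e))ᶜ) = Pu M ∩ ((Ray e)ᶜ ∩ (Ray (-e))ᶜ) := by
    ext x
    constructor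
    · rintro ⟨⟨h1, h2⟩, ⟨-, h3⟩⟩
      exact ⟨h1, h2, h3⟩
    · rintro ⟨h1, h2, h3⟩
      exact ⟨⟨h1, h2⟩, ⟨h1, h3⟩⟩
  refine ⟨range (oemb (ρ := ρ) hA), range (oemb (ρ := ρ) hB),
    (oemb_open hA h.invPu oA rfl).isOpen_range, (oemb_open hB h.invPu oB rfl).isOpen_range, ?_,
    ⟨oembHomeo hA h.invPu oA rfl⟩, ⟨oembHomeo hB h.invPu oB rfl⟩, ?_⟩
  · intro q
    obtain ⟨x, rfl⟩ := omk_surj _ q
    rw [range_oemb hA h.invA, range_oemb hB h.neg.invA]
    by_cases hx : (x : E) ∈ Ray e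
    · right
      refine ⟨x.2, ?_⟩
      rintro ⟨s, hs, hxs⟩
      obtain ⟨s', hs', hxs'⟩ := hx
      have h1 := congrArg l hxs
      have h2 := congrArg l hxs'
      rw [smul_neg, neg_neg, map_smul, h.le, smul_eq_mul, mul_one] at h1
      rw [map_neg, map_smul, h.le, smul_eq_mul, mul_one] at h2
      have h3 : s = 0 := by linarith
      apply x.2.2
      rw [hxs, h3, zero_smul, neg_zero]
    · exact Or.inl ⟨x.2, hx⟩
  · have e1 := oembHomeo hI h.invPu (oA.inter oB) hIeq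
    refine ⟨e1.trans (Homeomorph.setCongr ?_)⟩
    ext q
    obtain ⟨x, rfl⟩ := omk_surj _ q
    rw [range_oemb hI h.invI]
    exact and_congr (range_oemb hA h.invA x).symm (range_oemb hB h.neg.invA x).symm

theorem susp_nz (h : SD ρ M e l) {n : ℕ}
    (hn : NZ (OS ρ (Pu (M ⊓ LinearMap.ker (l : E →ₗ[ℝ] ℝ)))) (n + 1)) :
    NZ (OS ρ (Pu M)) (n + 2) := by
  obtain ⟨U, V, hU, hV, hUV, ⟨eU⟩, ⟨eV⟩, ⟨eI⟩⟩ := h.cover
  have c1 := h.contrA
  have c2 := h.neg.contrA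
  refine nz_union U V hU hV hUV (n + 1) ((vz_contr n).homeo eU) ((vz_contr n).homeo eV) ?_
  exact (nz_inter h hn).homeo eI

theorem susp_vz (h : SD ρ M e l) {n : ℕ}
    (hn : VZ (OS ρ (Pu (M ⊓ LinearMap.ker (l : E →ₗ[ℝ] ℝ)))) (n + 1)) :
    VZ (OS ρ (Pu M)) (n + 2) := by
  obtain ⟨U, V, hU, hV, hUV, ⟨eU⟩, ⟨eV⟩, ⟨eI⟩⟩ := h.cover
  have c1 := h.contrA
  have c2 := h.neg.contrA
  refine vz_union U V hU hV hUV (n + 1) ((vz_contr (n + 1)).homeo eU)
    ((vz_contr (n + 1)).homeo eV) ?_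
  exact (vz_inter h hn).homeo eI

end Susp

end Pool.Agent.Helper472_HK
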