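import Pool.Agent.Helper472_HK.Cases

/-!
The families of points symmetric with respect to a reflection of the torus.
-/

set_option autoImplicit false
set_option linter.unusedSectionVars false

namespace Pool.Agent.Helper472_HK

open Set Topology Module

/-- the exchange of the two halves -/
def flip (f l : ℕ) : Equiv.Perm (Fin f ⊕ (Fin l × Bool)) :=
  Equiv.sumCongr (Equiv.refl _) (Equiv.prodCongr (Equiv.refl _) Equiv.boolNot)

theorem aff_neg (τ t : Tor) : aff (-1) τ t = -t + τ := by
  change (-1 : ℤˣ) • t + τ = _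
  rw [Units.smul_def, Units.val_neg, Units.val_one, neg_smul, one_smul]

/-- the symmetric families -/
theorem noChart_sym {n : ℕ} {τ : Tor} (hτ : (n + 1) • τ = 0) {f l : ℕ} (t : Fin f → Tor)
    (ht : Function.Injective t) (ht2 : ∀ i, 2 • t i = τ) (hsum : ∑ i, t i + l • τ = 0)
    (hcard : f + 2 * l = n + 1) (hfl : 3 ≤ f ∨ (f = 2 ∧ 1 ≤ l)) : NoChart n (-1) τ := by
  obtain ⟨s, hs⟩ := exists_inf
  have hτT : τ ∈ TT := mem_TT (Nat.succ_pos n) hτ
  have htT : ∀ i, t i ∈ TT := fun i => mem_TT_of_smul two_pos (by rw [ht2]; exact hτT)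
  let z : Fin l → Tor := fun j => (((j : ℕ) : ℤ) + 1) • s
  have hz0 : ∀ j, z j ∉ TT := by
    intro j hj
    have := hs _ hj
    omega
  have hz1 : ∀ i j, z i - z j ∈ TT → i = j := by
    intro i j h
    have h2 : (((i : ℕ) : ℤ) - ((j : ℕ) : ℤ)) • s ∈ TT := by
      convert h using 1
      change _ = (((i : ℕ) : ℤ) + 1) • s - (((j : ℕ) : ℤ) + 1) • s
      rw [← sub_smul]
      congr 1
      ring
    have := hs _ h2
    apply Fin.ext
    omega
  have hz2 : ∀ i j, z i + z j ∉ TT := by
    intro i j h
    have h2 : (((i : ℕ) : ℤ) + ((j : ℕ) : ℤ) + 2) • s ∈ TT := by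
      convert h using 1
      change _ = (((i : ℕ) : ℤ) + 1) • s + (((j : ℕ) : ℤ) + 1) • s
      rw [← add_smul]
      congr 1
      ring
    have := hs _ h2
    omega
  let x : Fin f ⊕ (Fin l × Bool) → Tor :=
    Sum.elim t (fun b => if b.2 then z b.1 else τ - z b.1)
  have hxi : Function.Injective x := by
    rintro (i | ⟨i, a⟩) (j | ⟨j, b⟩) h
    · exact congrArg _ (ht h)
    · exfalso
      cases b
      · change t i = τ - z j at h
        apply hz0 j
        have : z j = τ - t i := by rw [h]; abel
        rw [this]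
        exact sub_mem hτT (htT i)
      · change t i = z j at h
        apply hz0 j
        rw [← h]
        exact htT i
    · exfalso
      cases a
      · change τ - z i = t j at h
        apply hz0 i
        have : z i = τ - t j := by rw [← h]; abel
        rw [this]
        exact sub_mem hτT (htT j)
      · change z i = t j at h
        apply hz0 i
        rw [h]
        exact htT j
    · cases a <;> cases b
      · change τ - z i = τ - z j at h
        have h1 : i = j := hz1 i j (by rw [sub_right_injective h, sub_self]; exact zero_mem _)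
        rw [h1]
      · exfalso
        change τ - z i = z j at h
        apply hz2 i j
        rw [← h]
        convert hτT using 1
        abel
      · exfalso
        change z i = τ - z j at h
        apply hz2 i j
        rw [h]
        convert hτT using 1
        abel
      · change z i = z j at h
        have h1 : i = j := hz1 i j (by rw [h, sub_self]; exact zero_mem _)
        rw [h1]
  have hfl2 : ∀ b, flip f l (flip f l b) = b := by
    rintro (i | ⟨i, _ | _⟩) <;> rfl
  refine noChart_of (ι := Fin f ⊕ (Fin l × Bool)) ?_ x ?_ hxi (flip f l) (-1) τ hτ hτ ?_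
    ⟨1, (zpow_one _).symm⟩ (fun k _ => ⟨k, rfl⟩) ?_ ?_
  · simp
    omega
  · rw [Fintype.sum_sum_type, Fintype.sum_prod_type]
    change ∑ i, t i + ∑ j : Fin l, ∑ b : Bool, (if b then z j else τ - z j) = 0
    have : ∀ j : Fin l, ∑ b : Bool, (if b then z j else τ - z j) = τ := by
      intro j
      rw [Fintype.sum_bool]
      simp
    rw [Finset.sum_congr rfl (fun j _ => this j), Finset.sum_const, Finset.card_univ,
      Fintype.card_fin, hsum]
  · rintro (i | ⟨i, _ | _⟩)
    · rw [aff_neg]
      change -t i + τ = t i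
      have h := ht2 i
      rw [two_smul] at h
      rw [← h, neg_add_cancel_left]
    · rw [aff_neg]
      change -(τ - z i) + τ = z i
      abel
    · rw [aff_neg]
      change -z i + τ = τ - z i
      abel
  · have : Fact (Nat.Prime 2) := ⟨Nat.prime_two⟩
    have h1 : ((flip f l, -1) : Equiv.Perm (Fin f ⊕ (Fin l × Bool)) × ℤˣ) ^ 2 = 1 := by
      refine Prod.ext ?_ ?_
      · change flip f l ^ 2 = 1
        ext1 b
        rw [pow_two, Equiv.Perm.mul_apply, hfl2]
        rfl
      · change (-1 : ℤˣ) ^ 2 = 1
        rw [neg_one_sq]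
    have h2 : ((flip f l, -1) : Equiv.Perm (Fin f ⊕ (Fin l × Bool)) × ℤˣ) ≠ 1 := by
      intro h
      have h3 : (-1 : ℤˣ) = 1 := congrArg Prod.snd h
      exact absurd h3 (by decide)
    rw [orderOf_eq_prime h1 h2]
    exact Nat.prime_two
  · refine Or.inr ⟨rfl, ?_⟩
    rcases hfl with h3 | ⟨h2, h1⟩
    · have e1 : ∀ i : Fin f, flip f l (Sum.inl i) = Sum.inl i := fun i => rfl
      have hne : ∀ a b : ℕ, ∀ (ha : a < f) (hb : b < f), a ≠ b →
          (Sum.inl ⟨a, ha⟩ : Fin f ⊕ (Fin l × Bool)) ≠ Sum.inl ⟨b, hb⟩ := by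
        intro a b ha hb hab h
        exact hab (congrArg Fin.val (Sum.inl_injective h))
      refine ⟨Sum.inl ⟨0, by omega⟩, Sum.inl ⟨1, by omega⟩, Sum.inl ⟨2, by omega⟩, ?_⟩
      rw [e1, e1, e1]
      refine ⟨?_, ?_, ?_, ?_, ?_, ?_, ?_, ?_, ?_⟩ <;> (apply hne; decide)
    · subst h2
      have e1 : ∀ i : Fin 2, flip 2 l (Sum.inl i) = Sum.inl i := fun i => rfl
      refine ⟨Sum.inl 0, Sum.inl 1, Sum.inr (⟨0, h1⟩, false), ?_⟩
      have e2 : flip 2 l (Sum.inr (⟨0, h1⟩, false)) = Sum.inr (⟨0, h1⟩, true) := rfl
      rw [e1, e1, e2]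
      refine ⟨?_, ?_, ?_, ?_, ?_, ?_, ?_, ?_, ?_⟩ <;> simp

/-! ### points of order two -/

/-- the points of order two -/
noncomputable def e1 : Tor := (((1 / 2 : ℝ) : UnitAddCircle), 0)

/-- the points of order two -/
noncomputable def e2 : Tor := (0, ((1 / 2 : ℝ) : UnitAddCircle))

theorem half_two : (2 : ℕ) • ((1 / 2 : ℝ) : UnitAddCircle) = 0 := by
  rw [← AddCircle.coe_nsmul, nsmul_eq_mul]
  refine (AddCircle.coe_eq_zero_iff (1 : ℝ)).2 ⟨1, ?_⟩
  norm_num

theorem half_ne : ((1 / 2 : ℝ) : UnitAddCircle) ≠ 0 := by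
  intro h
  obtain ⟨m, hm⟩ := (AddCircle.coe_eq_zero_iff (1 : ℝ)).1 h
  rw [zsmul_eq_mul, mul_one] at hm
  have h2 : (2 * m : ℤ) = 1 := by
    have : (2 * m : ℝ) = 1 := by rw [hm]; norm_num
    exact_mod_cast this
  omega

theorem two_e1 : (2 : ℕ) • e1 = 0 := Prod.ext half_two (smul_zero _)

theorem two_e2 : (2 : ℕ) • e2 = 0 := Prod.ext (smul_zero _) half_two

theorem e1_ne : e1 ≠ 0 := fun h => half_ne (congrArg Prod.fst h)

theorem e2_ne : e2 ≠ 0 := fun h => half_ne (congrArg Prod.snd h)

theorem e12_ne : e1 ≠ e2 := fun h => half_ne (congrArg Prod.fst h)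

theorem e1_add_ne : e1 + e2 ≠ 0 := by
  intro h
  have := congrArg Prod.fst h
  change ((1 / 2 : ℝ) : UnitAddCircle) + 0 = 0 at this
  rw [add_zero] at this
  exact half_ne this

/-- the reflection case -/
theorem noChart_refl {n : ℕ} (hn : 2 ≤ n) {τ : Tor} (hτ : (n + 1) • τ = 0) :
    NoChart n (-1) τ := by
  rcases Nat.even_or_odd' (n + 1) with ⟨m, hm | hm⟩
  · -- `n + 1` even
    obtain ⟨c, hc⟩ := exists_div τ two_pos
    by_cases hmτ : m • τ = 0
    · -- four fixed points
      obtain ⟨l, rfl⟩ : ∃ l, m = l + 2 := ⟨m - 2, by omega⟩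
      refine noChart_sym (l := l) hτ ![c, c + e1, c + e2, c + (e1 + e2)] ?_ ?_ ?_ (by omega)
        (Or.inl (by norm_num))
      · intro i j h
        fin_cases i <;> fin_cases j <;> first
          | rfl
          | exfalso
            simp only [Matrix.cons_val_zero, Matrix.cons_val_one, Matrix.cons_val,
              Fin.zero_eta, Fin.mk_one, Fin.reduceFinMk, left_eq_add, add_eq_left,
              add_right_inj, left_eq_add, add_eq_right, right_eq_add] at h
            first
              | exact e1_ne h
              | exact e2_ne h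
              | exact e12_ne h
              | exact e12_ne h.symm
              | exact e1_add_ne h
      · intro i
        fin_cases i
        · exact hc
        · change 2 • (c + e1) = τ
          rw [smul_add, hc, two_e1, add_zero]
        · change 2 • (c + e2) = τ
          rw [smul_add, hc, two_e2, add_zero]
        · change 2 • (c + (e1 + e2)) = τ
          rw [smul_add, hc, smul_add, two_e1, two_e2, add_zero, add_zero]
      · rw [Fin.sum_univ_four]
        change c + (c + e1) + (c + e2) + (c + (e1 + e2)) + l • τ = 0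
        have h1 : c + (c + e1) + (c + e2) + (c + (e1 + e2)) + l • τ =
            (2 • c + 2 • c) + 2 • e1 + 2 • e2 + l • τ := by
          abel
        rw [h1, hc, two_e1, two_e2, add_zero, add_zero, ← hmτ]
        rw [add_smul, two_smul]
        abel
    · -- two fixed points
      obtain ⟨l, rfl⟩ : ∃ l, m = l + 1 := ⟨m - 1, by omega⟩
      have h2m : 2 • ((l + 1) • τ) = 0 := by
        rw [smul_smul, ← hm, hτ]
      refine noChart_sym (l := l) hτ ![c, c + (l + 1) • τ] ?_ ?_ ?_ (by omega)
        (Or.inr ⟨rfl, by omega⟩)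
      · intro i j h
        fin_cases i <;> fin_cases j <;> first
          | rfl
          | exfalso
            simp only [Matrix.cons_val_zero, Matrix.cons_val_one,
              Fin.zero_eta, Fin.mk_one, left_eq_add, add_eq_left] at h
            exact hmτ h
      · intro i
        fin_cases i
        · exact hc
        · change 2 • (c + (l + 1) • τ) = τ
          rw [smul_add, hc, h2m, add_zero]
      · rw [Fin.sum_univ_two]
        change c + (c + (l + 1) • τ) + l • τ = 0
        have h1 : c + (c + (l + 1) • τ) + l • τ = 2 • c + (l + 1) • τ + l • τ := by abel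
        rw [h1, hc, ← h2m, two_smul, add_smul, one_smul]
        abel
  · -- `n + 1` odd
    obtain ⟨l, rfl⟩ : ∃ l, m = l + 1 := ⟨m - 1, by omega⟩
    set c : Tor := (l + 2) • τ with hcdef
    have hc : 2 • c = τ := by
      have h1 : 2 • c = (n + 1) • τ + τ := by
        rw [hcdef, smul_smul, hm, ← succ_nsmul]
        congr 1
      rw [h1, hτ, zero_add]
    refine noChart_sym (l := l) hτ ![c + e1, c + e2, c + (e1 + e2)] ?_ ?_ ?_ (by omega)
      (Or.inl (by norm_num))
    · intro i j h
      fin_cases i <;> fin_cases j <;> first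
        | rfl
        | exfalso
          simp only [Matrix.cons_val_zero, Matrix.cons_val_one, Matrix.cons_val,
            Fin.zero_eta, Fin.mk_one, Fin.reduceFinMk, left_eq_add, add_eq_left,
            add_right_inj, left_eq_add, add_eq_right, right_eq_add] at h
          first
            | exact e1_ne h
            | exact e2_ne h
            | exact e12_ne h
            | exact e12_ne h.symm
    · intro i
      fin_cases i
      · change 2 • (c + e1) = τ
        rw [smul_add, hc, two_e1, add_zero]
      · change 2 • (c + e2) = τ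
        rw [smul_add, hc, two_e2, add_zero]
      · change 2 • (c + (e1 + e2)) = τ
        rw [smul_add, hc, smul_add, two_e1, two_e2, add_zero, add_zero]
    · rw [Fin.sum_univ_three]
      change (c + e1) + (c + e2) + (c + (e1 + e2)) + l • τ = 0
      have h1 : (c + e1) + (c + e2) + (c + (e1 + e2)) + l • τ =
          (2 • c + c) + 2 • e1 + 2 • e2 + l • τ := by
        abel
      rw [h1, hc, two_e1, two_e2, add_zero, add_zero, ← hτ, hm, hcdef]
      rw [← succ_nsmul', ← add_smul]
      congr 1
      ring

end Pool.Agent.Helper472_HK
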