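import Pool.Agent.Helper472_HK.CP
import Pool.Agent.Helper472_HK.Avg

/-!
The quotients of the space of configurations of `n + 1` points of a real two-dimensional torus with
sum zero by permutations and by the powers of an affine map.
-/

set_option autoImplicit false
set_option linter.unusedSectionVars false

namespace Pool.Agent.Helper472_HK

open Set Topology Module

/-- The two-dimensional real torus `(ℝ/ℤ)²`. -/
abbrev Tor : Type := UnitAddCircle × UnitAddCircle

/-- The transformation `t ↦ ε t + τ` of the torus, where `ε = ±1`. -/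
def aff (ε : ℤˣ) (τ : Tor) : Equiv.Perm Tor where
  toFun t := ε • t + τ
  invFun t := ε⁻¹ • (t - τ)
  left_inv t := by
    change ε⁻¹ • ((ε • t + τ) - τ) = t
    rw [add_sub_cancel_right, inv_smul_smul]
  right_inv t := by
    change ε • (ε⁻¹ • (t - τ)) + τ = t
    rw [smul_inv_smul, sub_add_cancel]

/-- The families of `n + 1` points of the torus with sum zero. -/
def Cfg (n : ℕ) : Type := {x : Fin (n + 1) → Tor // ∑ i, x i = 0}

instance (n : ℕ) : TopologicalSpace (Cfg n) :=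
  inferInstanceAs (TopologicalSpace {x : Fin (n + 1) → Tor // ∑ i, x i = 0})

/-- Two families are equivalent if the second one is obtained from the first one by a permutation
of the indices and by applying a power of `t ↦ ε t + τ` to all points. -/
def skSetoid (n : ℕ) (ε : ℤˣ) (τ : Tor) : Setoid (Cfg n) where
  r x y := ∃ (σ : Equiv.Perm (Fin (n + 1))) (k : ℤ), ∀ i, y.1 i = (aff ε τ ^ k) (x.1 (σ i))
  iseqv := by
    refine ⟨fun x => ⟨1, 0, fun i => rfl⟩, ?_, ?_⟩
    · rintro x y ⟨σ, k, h⟩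
      refine ⟨σ⁻¹, -k, fun i => ?_⟩
      have h1 : σ (σ⁻¹ i) = i := Equiv.apply_symm_apply σ i
      rw [h, h1, ← Equiv.Perm.mul_apply, ← zpow_add, neg_add_cancel]
      rfl
    · rintro x y z ⟨σ, k, h⟩ ⟨σ', l, h'⟩
      refine ⟨σ * σ', l + k, fun i => ?_⟩
      rw [h', h, ← Equiv.Perm.mul_apply, ← zpow_add]
      rfl

/-- The quotient space. -/
def TwSk (n : ℕ) (ε : ℤˣ) (τ : Tor) : Type := Quotient (skSetoid n ε τ)

instance (n : ℕ) (ε : ℤˣ) (τ : Tor) : TopologicalSpace (TwSk n ε τ) :=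
  inferInstanceAs (TopologicalSpace (Quotient (skSetoid n ε τ)))

/-! ### powers of the affine map -/

/-- affine maps with translation part killed by `n + 1` -/
def affG (n : ℕ) : Subgroup (Equiv.Perm Tor × ℤˣ) where
  carrier := {a | ∃ s : Tor, (n + 1) • s = 0 ∧ ∀ t, a.1 t = a.2 • t + s}
  mul_mem' := by
    rintro a b ⟨s, hs, h⟩ ⟨s', hs', h'⟩
    refine ⟨a.2 • s' + s, ?_, fun t => ?_⟩
    · rw [smul_add, hs, add_zero, smul_comm, hs', smul_zero]
    · change a.1 (b.1 t) = (a.2 * b.2) • t + (a.2 • s' + s)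
      rw [h', h, smul_add, mul_smul, add_assoc]
  one_mem' := ⟨0, smul_zero _, fun t => by
    change t = (1 : ℤˣ) • t + 0
    rw [one_smul, add_zero]⟩
  inv_mem' := by
    rintro a ⟨s, hs, h⟩
    refine ⟨-(a.2⁻¹ • s), ?_, fun t => ?_⟩
    · rw [smul_neg, smul_comm, hs, smul_zero, neg_zero]
    · change a.1⁻¹ t = a.2⁻¹ • t + -(a.2⁻¹ • s)
      rw [Equiv.Perm.inv_eq_iff_eq, h, smul_add, smul_neg, smul_inv_smul, smul_inv_smul,
        neg_add_cancel_right]

theorem aff_zpow {n : ℕ} {ε : ℤˣ} {τ : Tor} (hτ : (n + 1) • τ = 0) (k : ℤ) :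
    ∃ s : Tor, (n + 1) • s = 0 ∧ ∀ t, (aff ε τ ^ k) t = ε ^ k • t + s := by
  have h : ((aff ε τ, ε) : Equiv.Perm Tor × ℤˣ) ∈ affG n := ⟨τ, hτ, fun t => rfl⟩
  exact (affG n).zpow_mem h k

theorem aff_zpow_add {n : ℕ} {ε : ℤˣ} {τ : Tor} (hτ : (n + 1) • τ = 0) (k : ℤ) (t s : Tor) :
    (aff ε τ ^ k) (t + s) = (aff ε τ ^ k) t + ε ^ k • s := by
  obtain ⟨c, -, h⟩ := aff_zpow (ε := ε) hτ k
  rw [h, h, smul_add, add_right_comm]

theorem trans_pow {f : Equiv.Perm Tor} {s : Tor} (h : ∀ t, f t = t + s) (k : ℕ) (t : Tor) :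
    (f ^ k) t = t + k • s := by
  induction k generalizing t with
  | zero => rw [zero_smul, add_zero]; rfl
  | succ k ih =>
    rw [pow_succ, Equiv.Perm.mul_apply, h, ih, succ_nsmul']
    abel

theorem aff_fin {n : ℕ} {ε : ℤˣ} {τ : Tor} (hτ : (n + 1) • τ = 0) : IsOfFinOrder (aff ε τ) := by
  refine isOfFinOrder_iff_pow_eq_one.2 ⟨2 * (n + 1), by omega, ?_⟩
  rw [pow_mul]
  have h2 : ∀ t, (aff ε τ ^ 2) t = t + (ε • τ + τ) := by
    intro t
    rw [pow_two, Equiv.Perm.mul_apply]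
    change ε • (ε • t + τ) + τ = _
    rw [smul_add, smul_smul, Int.units_mul_self, one_smul, add_assoc]
  ext1 t
  rw [trans_pow h2, smul_add, smul_comm, hτ, smul_zero, add_zero, add_zero]
  rfl

/-! ### the quotient map is open -/

/-- the transformations of the space of families -/
def cfgAct {n : ℕ} {ε : ℤˣ} {τ : Tor} (hτ : (n + 1) • τ = 0) (σ : Equiv.Perm (Fin (n + 1)))
    (k : ℤ) (x : Cfg n) : Cfg n :=
  ⟨fun i => (aff ε τ ^ k) (x.1 (σ i)), by
    obtain ⟨c, hc, h⟩ := aff_zpow (ε := ε) hτ k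
    simp only [h]
    rw [Finset.sum_add_distrib, ← Finset.smul_sum, Equiv.sum_comp σ x.1, x.2, smul_zero, zero_add,
      Finset.sum_const, Finset.card_univ, Fintype.card_fin, hc]⟩

theorem cfgAct_cont {n : ℕ} {ε : ℤˣ} {τ : Tor} (hτ : (n + 1) • τ = 0)
    (σ : Equiv.Perm (Fin (n + 1))) (k : ℤ) : Continuous (cfgAct (ε := ε) hτ σ k) := by
  refine Continuous.subtype_mk ?_ _
  obtain ⟨c, hc, h⟩ := aff_zpow (ε := ε) hτ k
  simp only [h]
  refine continuous_pi fun i => ?_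
  have h1 : Continuous fun x : Cfg n => x.1 (σ i) :=
    (continuous_apply (σ i)).comp continuous_subtype_val
  refine Continuous.add ?_ continuous_const
  rcases Int.units_eq_one_or (ε ^ k) with h2 | h2 <;> rw [h2]
  · simp only [one_smul]
    exact h1
  · have h3 : ∀ t : Tor, (-1 : ℤˣ) • t = -t := fun t => by
      rw [Units.smul_def, Units.val_neg, Units.val_one, neg_smul, one_smul]
    simp only [h3]
    exact h1.neg

/-- the projection -/
def skMk (n : ℕ) (ε : ℤˣ) (τ : Tor) : Cfg n → TwSk n ε τ := Quotient.mk (skSetoid n ε τ)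

theorem skMk_cont (n : ℕ) (ε : ℤˣ) (τ : Tor) : Continuous (skMk n ε τ) := continuous_quotient_mk'

theorem skMk_eq {n : ℕ} {ε : ℤˣ} {τ : Tor} {x y : Cfg n} : skMk n ε τ x = skMk n ε τ y ↔
    ∃ (σ : Equiv.Perm (Fin (n + 1))) (k : ℤ), ∀ i, y.1 i = (aff ε τ ^ k) (x.1 (σ i)) :=
  Quotient.eq (r := skSetoid n ε τ)

theorem skMk_open {n : ℕ} {ε : ℤˣ} {τ : Tor} (hτ : (n + 1) • τ = 0) :
    IsOpenMap (skMk n ε τ) := by
  intro U hU
  refine (isQuotientMap_quotient_mk' (s := skSetoid n ε τ)).isOpen_preimage.1 ?_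
  have : (Quotient.mk (skSetoid n ε τ)) ⁻¹' (skMk n ε τ '' U) =
      ⋃ (σ : Equiv.Perm (Fin (n + 1))) (k : ℤ), cfgAct (ε := ε) hτ σ k ⁻¹' U := by
    ext x
    simp only [mem_preimage, mem_iUnion]
    constructor
    · rintro ⟨y, hy, hxy⟩
      obtain ⟨σ, k, h⟩ := skMk_eq.1 (show skMk n ε τ x = skMk n ε τ y from hxy.symm)
      refine ⟨σ, k, ?_⟩
      have : cfgAct (ε := ε) hτ σ k x = y := Subtype.ext (funext fun i => (h i).symm)
      rw [this]
      exact hy
    · rintro ⟨σ, k, h⟩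
      refine ⟨_, h, ?_⟩
      exact (skMk_eq.2 ⟨σ, k, fun i => rfl⟩).symm
  refine this ▸ ?_
  exact isOpen_iUnion fun σ => isOpen_iUnion fun k => hU.preimage (cfgAct_cont hτ σ k)

end Pool.Agent.Helper472_HK
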