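import Pool.Agent.Helper472_HK.Orb
import Pool.Agent.Helper534.LS.P_mv_delta_inl

/-!
Homology of punctured spaces modulo linear groups: vanishing for the trivial group, nonvanishing in
degree `dim F + 1` for a finite abelian group which acts freely outside its fixed space `F`.
-/

set_option autoImplicit false
set_option linter.unusedSectionVars false

namespace Pool.Agent.Helper472_HK

open Pool.Agent.Helper534.LS Set Topology Module

/-! ### degree zero -/

section Zero

variable {X : Type} [TopologicalSpace X]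

theorem ptc_eq_of_joined {x y : X} (h : Joined x y) : (ptc x : HH X 0) = ptc y := by
  obtain ⟨γ⟩ := h
  let f : C(Unit × unitInterval, X) := ⟨fun p => γ p.2, γ.continuous.comp continuous_snd⟩
  unfold ptc
  have hh : (ContinuousMap.const Unit x).Homotopic (ContinuousMap.const Unit y) := by
    refine ⟨⟨⟨fun p => γ p.1, γ.continuous.comp continuous_fst⟩, ?_, ?_⟩⟩
    · intro u
      exact γ.source
    · intro u
      exact γ.target
  rw [hmap_homotopic _ _ hh]

theorem single_eq_ptc (σ : Sing X 0) (h : (Finsupp.single σ 1 : Sing X 0 →₀ ℤ) ∈ Cyc X 0) :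
    cls _ h = ptc (σ (vtx 0 0)) := by
  have hp : ∀ x : stdSimplex ℝ (Fin 1), x = vtx 0 0 := by
    intro x
    apply Subtype.ext
    funext i
    have h1 := x.2.2
    rw [Fin.sum_univ_one] at h1
    have hi : i = 0 := Subsingleton.elim _ _
    rw [hi]
    change x.1 0 = (Pi.single 0 1 : Fin 1 → ℝ) 0
    rw [Pi.single_eq_same]
    exact h1
  have h1 : ptc (σ (vtx 0 0)) =
      cls (push (ContinuousMap.const Unit (σ (vtx 0 0))) 0
        (Finsupp.single (ContinuousMap.const _ ()) 1)) (push_mem_Cyc _ 0 _ Submodule.mem_top) := rfl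
  rw [h1]
  have h2 : push (ContinuousMap.const Unit (σ (vtx 0 0))) 0
      (Finsupp.single (ContinuousMap.const _ ()) 1) = Finsupp.single σ 1 := by
    unfold push
    rw [Finsupp.lmapDomain_apply, Finsupp.mapDomain_single]
    congr 1
    ext x
    change σ (vtx 0 0) = σ x
    rw [hp x]
  congr 1
  exact h2.symm

theorem hh_zero_path [PathConnectedSpace X] (x₀ : X) (d : HH X 0) : ∃ m : ℤ, d = m • ptc x₀ := by
  obtain ⟨⟨c, hc⟩, rfl⟩ := Submodule.Quotient.mk_surjective _ d
  have key : ∀ c : Sing X 0 →₀ ℤ, ∃ m : ℤ, cls c (Submodule.mem_top : c ∈ Cyc X 0) =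
      m • ptc x₀ := by
    intro c
    induction c using Finsupp.induction_linear with
    | zero =>
      refine ⟨0, ?_⟩
      rw [zero_smul]
      rfl
    | add f g hf hg =>
      obtain ⟨a, ha⟩ := hf
      obtain ⟨b, hb⟩ := hg
      refine ⟨a + b, ?_⟩
      rw [add_smul, ← ha, ← hb]
      rfl
    | single σ n =>
      refine ⟨n, ?_⟩
      have h1 := single_eq_ptc σ Submodule.mem_top
      have h2 : (ptc (σ (vtx 0 0)) : HH X 0) = ptc x₀ :=
        ptc_eq_of_joined (PathConnectedSpace.joined _ _)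
      rw [← h2, ← h1]
      have h3 : (Finsupp.single σ n : Sing X 0 →₀ ℤ) = n • Finsupp.single σ 1 := by
        rw [Finsupp.smul_single, smul_eq_mul, mul_one]
      have h4 : cls (Finsupp.single σ n : Sing X 0 →₀ ℤ) (Submodule.mem_top) =
          cls (n • Finsupp.single σ 1 : Sing X 0 →₀ ℤ) (Submodule.mem_top) := by
        congr 1
      rw [h4]
      rfl
  exact key c

theorem hmap_ptc {Y : Type} [TopologicalSpace Y] (f : C(X, Y)) (x : X) :
    hmap f 0 (ptc x) = ptc (f x) := by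
  unfold ptc
  rw [← hmap_comp]
  rfl

theorem ptc_ne [Nonempty X] (x : X) (m : ℤ) (h : m • (ptc x : HH X 0) = 0) : m = 0 := by
  let f : C(X, Unit) := ContinuousMap.const X ()
  have h1 := congrArg (hmap f 0) h
  have h0 : hmap f 0 (0 : HH X 0) = 0 := (hmap f 0).map_zero
  rw [map_smul, hmap_ptc, h0] at h1
  -- the augmentation
  have hB : ∀ z : Sing Unit 1 →₀ ℤ, (bdry Unit 0 z) = 0 := by
    have : bdry Unit 0 = 0 := by
      apply Finsupp.lhom_ext'
      intro σ
      apply LinearMap.ext_ring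
      simp only [LinearMap.comp_apply, Finsupp.lsingle_apply, bdry, LinearMap.sum_apply,
        LinearMap.smul_apply, Finsupp.lmapDomain_apply, Finsupp.mapDomain_single]
      refine (Fin.sum_univ_two _).trans ?_
      have e0 : (((0 : Fin 2) : ℕ)) = 0 := rfl
      have e1 : (((1 : Fin 2) : ℕ)) = 1 := rfl
      have hf : sface 0 0 σ = sface 0 1 σ := by
        ext
      rw [e0, e1, hf, pow_zero, pow_one, one_smul, neg_one_smul, add_neg_cancel]
      rfl
    exact fun z => LinearMap.congr_fun this z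
  have h2 : m • ptU = 0 := by
    have h3 : (ptc (f x) : HH Unit 0) = ptU := by
      have : (ContinuousMap.const Unit (f x)) = ContinuousMap.id Unit := rfl
      unfold ptc
      rw [this, hmap_id]
    rw [← h3]
    exact h1
  have h3 : cls (m • Finsupp.single (ContinuousMap.const _ ()) 1 : Sing Unit 0 →₀ ℤ)
      Submodule.mem_top = 0 := h2
  have h4 : (m • Finsupp.single (ContinuousMap.const _ ()) 1 : Sing Unit 0 →₀ ℤ) ∈ Bdy Unit 0 := by
    have h5 : (⟨_, Submodule.mem_top⟩ : Cyc Unit 0) ∈ (Bdy Unit 0).submoduleOf (Cyc Unit 0) :=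
      (Submodule.Quotient.mk_eq_zero _).1 h3
    exact h5
  obtain ⟨w, hw⟩ := h4
  rw [hB] at hw
  have h6 := DFunLike.congr_fun hw (ContinuousMap.const _ ())
  simpa using h6.symm

theorem vz_one_union (U V : Set X) (hU : IsOpen U) (hV : IsOpen V) (hUV : ∀ x, x ∈ U ∨ x ∈ V)
    (h1 : VZ U 1) (h2 : VZ V 1) [PathConnectedSpace ↥(U ∩ V)] : VZ X 1 := by
  intro x
  obtain ⟨x₀⟩ : Nonempty ↥(U ∩ V) := inferInstance
  obtain ⟨m, hm⟩ := hh_zero_path x₀ (delta U V 0 x)
  have h3 := (mv_delta_inl U V hU hV hUV 0 x).1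
  rw [hm, map_smul, hmap_ptc] at h3
  have : Nonempty U := ⟨inl U V x₀⟩
  have h4 := ptc_ne _ m h3
  have h5 : delta U V 0 x = 0 := by rw [hm, h4, zero_smul]
  obtain ⟨u, v, hx⟩ := mv_exact1 U V hU hV hUV 0 x h5
  rw [hx, h1 u, h2 v, map_zero, map_zero, add_zero]

end Zero

variable {E : Type} [NormedAddCommGroup E] [NormedSpace ℝ E] [FiniteDimensional ℝ E]

theorem finrank_inf_ker (M : Submodule ℝ E) (e : E) (he : e ∈ M) (l : E →L[ℝ] ℝ) (hl : l e = 1) :
    finrank ℝ (M ⊓ LinearMap.ker (l : E →ₗ[ℝ] ℝ) : Submodule ℝ E) + 1 = finrank ℝ M := by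
  let f : M →ₗ[ℝ] ℝ := (l : E →ₗ[ℝ] ℝ).domRestrict M
  have h1 := LinearMap.finrank_range_add_finrank_ker f
  have h2 : LinearMap.range f = ⊤ := by
    rw [LinearMap.range_eq_top]
    intro c
    refine ⟨c • ⟨e, he⟩, ?_⟩
    rw [map_smul]
    change c • l e = c
    rw [hl, smul_eq_mul, mul_one]
  rw [h2, finrank_top, finrank_self] at h1
  have h3 : (LinearMap.ker f).map M.subtype = M ⊓ LinearMap.ker (l : E →ₗ[ℝ] ℝ) := by
    ext x
    constructor
    · rintro ⟨y, hy, rfl⟩
      exact ⟨y.2, hy⟩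
    · rintro ⟨hx, hx'⟩
      exact ⟨⟨x, hx⟩, hx', rfl⟩
  have h4 : finrank ℝ (LinearMap.ker f) =
      finrank ℝ (M ⊓ LinearMap.ker (l : E →ₗ[ℝ] ℝ) : Submodule ℝ E) := by
    rw [← h3]
    exact (LinearEquiv.finrank_eq (Submodule.equivMapOfInjective M.subtype
      M.injective_subtype (LinearMap.ker f)))
  omega

theorem pc_Pu (M : Submodule ℝ E) (h : 2 ≤ finrank ℝ M) : IsPathConnected (Pu M) := by
  have h1 : 1 < Module.rank ℝ M := by
    rw [← finrank_eq_rank]
    exact_mod_cast h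
  have h2 := isPathConnected_compl_singleton_of_one_lt_rank h1 (0 : M)
  have h3 : Pu M = (Subtype.val : M → E) '' {0}ᶜ := by
    ext x
    constructor
    · rintro ⟨hx, hx0⟩
      refine ⟨⟨x, hx⟩, ?_, rfl⟩
      intro h0
      exact hx0 (congrArg Subtype.val h0)
    · rintro ⟨y, hy, rfl⟩
      exact ⟨y.2, fun h0 => hy (Subtype.ext h0)⟩
  rw [h3]
  exact h2.image continuous_subtype_val

theorem exists_ne_of_finrank (M : Submodule ℝ E) (h : 1 ≤ finrank ℝ M) : ∃ e ∈ M, e ≠ 0 := by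
  have : M ≠ ⊥ := by
    rintro rfl
    rw [finrank_bot] at h
    omega
  obtain ⟨e, he, he0⟩ := Submodule.exists_mem_ne_zero_of_ne_bot this
  exact ⟨e, he, he0⟩

/-- the trivial representation of the trivial group -/
def tr (E : Type) [NormedAddCommGroup E] [NormedSpace ℝ E] : PUnit →* (E ≃L[ℝ] E) := 1

/-- `H_j(ℝ^N ∖ 0) = 0` for `0 < j < N - 1` -/
theorem vz_punctured (n : ℕ) : ∀ M : Submodule ℝ E, n + 3 ≤ finrank ℝ M →
    VZ (OS (tr E) (Pu M)) (n + 1) := by
  have hSD : ∀ (M : Submodule ℝ E) (e : E) (l : E →L[ℝ] ℝ), e ∈ M → l e = 1 →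
      SD (tr E) M e l := fun M e l he hl => ⟨fun _ _ h => h, he, fun _ => rfl, hl, fun _ _ => rfl⟩
  induction n with
  | zero =>
    intro M hM
    obtain ⟨e, he, he0⟩ := exists_ne_of_finrank M (by omega)
    obtain ⟨l, hl⟩ := SeparatingDual.exists_eq_one (R := ℝ) he0
    have h := hSD M e l he hl
    obtain ⟨U, V, hU, hV, hUV, ⟨eU⟩, ⟨eV⟩, ⟨eI⟩⟩ := h.cover
    have c1 := h.contrA
    have c2 := h.neg.contrA
    have hr := finrank_inf_ker M e he l hl
    have hp := pc_Pu (M ⊓ LinearMap.ker (l : E →ₗ[ℝ] ℝ)) (by omega)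
    have hI : IsPathConnected ((Pu M ∩ (Ray e)ᶜ) ∩ (Pu M ∩ (Ray (-e))ᶜ)) := by
      have h1 : (Pu M ∩ (Ray e)ᶜ) ∩ (Pu M ∩ (Ray (-e))ᶜ) =
          (fun p : ℝ × E => p.1 • e + p.2) ''
            ((univ : Set ℝ) ×ˢ Pu (M ⊓ LinearMap.ker (l : E →ₗ[ℝ] ℝ))) := by
        ext x
        rw [mem_inter_iff' h]
        constructor
        · rintro ⟨hxM, hx⟩
          refine ⟨(l x, x - l x • e), ⟨mem_univ _, ⟨M.sub_mem hxM (M.smul_mem _ he), ?_⟩, hx⟩, ?_⟩
          · change l (x - l x • e) = 0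
            rw [map_sub, map_smul, hl, smul_eq_mul, mul_one, sub_self]
          · change l x • e + (x - l x • e) = x
            abel
        · rintro ⟨⟨s, y⟩, ⟨-, ⟨hyM, hyl⟩, hy0⟩, rfl⟩
          have hyl' : l y = 0 := hyl
          refine ⟨M.add_mem (M.smul_mem _ he) hyM, ?_⟩
          change s • e + y - l (s • e + y) • e ≠ 0
          rw [map_add, map_smul, hl, hyl', smul_eq_mul, mul_one, add_zero, add_sub_cancel_left]
          exact hy0
      rw [h1]
      exact (isPathConnected_univ.prod hp).image (by fun_prop)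
    have hI2 : PathConnectedSpace ↥((Pu M ∩ (Ray e)ᶜ) ∩ (Pu M ∩ (Ray (-e))ᶜ)) :=
      isPathConnected_iff_pathConnectedSpace.1 hI
    have hI3 : PathConnectedSpace (OS (tr E) ((Pu M ∩ (Ray e)ᶜ) ∩ (Pu M ∩ (Ray (-e))ᶜ))) :=
      (omk_surj _).pathConnectedSpace (omk_cont _)
    have hI4 : PathConnectedSpace ↥(U ∩ V) := eI.surjective.pathConnectedSpace eI.continuous
    exact vz_one_union U V hU hV hUV ((vz_contr 0).homeo eU) ((vz_contr 0).homeo eV)
  | succ n ih =>
    intro M hM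
    obtain ⟨e, he, he0⟩ := exists_ne_of_finrank M (by omega)
    obtain ⟨l, hl⟩ := SeparatingDual.exists_eq_one (R := ℝ) he0
    have hr := finrank_inf_ker M e he l hl
    exact susp_vz (hSD M e l he hl) (ih _ (by omega))

/-! ### nonvanishing -/

variable {G : Type} [CommGroup G] [Finite G] [Nontrivial G] {ρ : G →* (E ≃L[ℝ] E)}

theorem nz_base {S : Set E} (hS : Inv ρ S) (hfree : ∀ g, ∀ x ∈ S, ρ g x = x → g = 1)
    (hpc : IsPathConnected S) : NZ (OS ρ S) 1 := by
  let act : MulAction G S :=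
    { smul := fun g x => ⟨ρ g x, hS g x x.2⟩
      one_smul := fun x => Subtype.ext (rho_one ρ (x : E))
      mul_smul := fun g h x => Subtype.ext (rho_mul ρ g h (x : E)) }
  have hsm : ∀ (g : G) (x : S), ((g • x : S) : E) = ρ g x := fun _ _ => rfl
  have hc : ∀ g : G, Continuous fun x : S => g • x := by
    intro g
    refine Continuous.subtype_mk ?_ _
    exact (ρ g).continuous.comp continuous_subtype_val
  have hq : IsQuotientCoveringMap (omk ρ S) G := by
    refine ⟨(omk_oq hS).isQuotientMap, ⟨hc⟩, ?_, ?_⟩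
    · intro x y
      rw [omk_eq]
      constructor
      · rintro ⟨g, hg⟩
        refine ⟨g⁻¹, ?_⟩
        change g⁻¹ • y = x
        apply Subtype.ext
        rw [hsm, ← hg, rho_inv]
      · rintro ⟨g, hg⟩
        have hg' : g • y = x := hg
        refine ⟨g⁻¹, ?_⟩
        rw [← hg', hsm, rho_inv]
    · intro x
      have hex : ∀ g : G, ∃ W ∈ 𝓝 x, g ≠ 1 → Disjoint ((fun y : S => g • y) '' W) W := by
        intro g
        by_cases hg : g = 1
        · exact ⟨univ, Filter.univ_mem, fun h => absurd hg h⟩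
        · have hne : g • x ≠ x := by
            intro h
            exact hg (hfree g x x.2 (congrArg Subtype.val h))
          obtain ⟨A, B, hA, hB, hxA, hxB, hAB⟩ := t2_separation hne
          refine ⟨(fun y : S => g • y) ⁻¹' A ∩ B,
            Filter.inter_mem ((hA.preimage (hc g)).mem_nhds hxA) (hB.mem_nhds hxB), fun _ => ?_⟩
          refine hAB.mono ?_ inter_subset_right
          rintro _ ⟨y, hy, rfl⟩
          exact hy.1
      choose W hW hWd using hex
      refine ⟨⋂ g, W g, Filter.iInter_mem.2 hW, ?_⟩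
      intro g hg
      by_contra hne
      obtain ⟨z, ⟨y, hy, hyz⟩, hz⟩ := hg
      exact (Set.disjoint_left.1 (hWd g hne)) ⟨y, mem_iInter.1 hy g, hyz⟩ (mem_iInter.1 hz g)
  have : PathConnectedSpace S := isPathConnected_iff_pathConnectedSpace.1 hpc
  exact nz_one hq

/-- `P` is an equivariant projection to the fixed space, and the action is free outside. -/
structure PD (ρ : G →* (E ≃L[ℝ] E)) (P : E →L[ℝ] E) : Prop where
  fix : ∀ g x, ρ g (P x) = P x
  inv : ∀ g x, P (ρ g x) = P x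
  idem : ∀ x, P (P x) = P x
  free : ∀ g x, P x = 0 → x ≠ 0 → ρ g x = x → g = 1

theorem nz_comap {P : E →L[ℝ] E} (h : PD ρ P)
    (hd : 2 ≤ finrank ℝ (LinearMap.ker (P : E →ₗ[ℝ] E))) (k : ℕ) :
    ∀ F : Submodule ℝ E, F ≤ LinearMap.range (P : E →ₗ[ℝ] E) → finrank ℝ F = k →
      NZ (OS ρ (Pu (F.comap (P : E →ₗ[ℝ] E)))) (k + 1) := by
  induction k with
  | zero =>
    intro F _ hF
    have hF0 : F = ⊥ := Submodule.finrank_eq_zero.1 hF
    subst hF0
    have h1 : (⊥ : Submodule ℝ E).comap (P : E →ₗ[ℝ] E) = LinearMap.ker (P : E →ₗ[ℝ] E) :=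
      Submodule.comap_bot _
    rw [h1]
    refine nz_base ?_ ?_ (pc_Pu _ hd)
    · rintro g x ⟨hx, hx0⟩
      refine ⟨?_, fun h0 => hx0 ((ρ g).injective (by rw [h0, map_zero]))⟩
      change P (ρ g x) = 0
      rw [h.inv]
      exact hx
    · rintro g x ⟨hx, hx0⟩ hgx
      exact h.free g x hx hx0 hgx
  | succ k ih =>
    intro F hFP hF
    obtain ⟨e, he, he0⟩ := exists_ne_of_finrank F (by omega)
    have hPe : P e = e := by
      obtain ⟨y, hy⟩ := hFP he
      rw [← hy]
      exact h.idem y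
    obtain ⟨l, hl⟩ := SeparatingDual.exists_eq_one (R := ℝ) he0
    have hSD : SD ρ (F.comap (P : E →ₗ[ℝ] E)) e (l.comp P) := by
      refine ⟨?_, ?_, ?_, ?_, ?_⟩
      · intro g x hx
        change P (ρ g x) ∈ F
        rw [h.inv]
        exact hx
      · change P e ∈ F
        rw [hPe]
        exact he
      · intro g
        rw [← hPe, h.fix]
      · change l (P e) = 1
        rw [hPe, hl]
      · intro g x
        change l (P (ρ g x)) = l (P x)
        rw [h.inv]
    have h1 : F.comap (P : E →ₗ[ℝ] E) ⊓ LinearMap.ker ((l.comp P : E →L[ℝ] ℝ) : E →ₗ[ℝ] ℝ) =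
        (F ⊓ LinearMap.ker (l : E →ₗ[ℝ] ℝ)).comap (P : E →ₗ[ℝ] E) := by
      ext x
      exact Iff.rfl
    have hr := finrank_inf_ker F e he l hl
    have h2 := ih (F ⊓ LinearMap.ker (l : E →ₗ[ℝ] ℝ)) (inf_le_left.trans hFP) (by omega)
    rw [← h1] at h2
    exact susp_nz hSD h2

theorem nz_top {P : E →L[ℝ] E} (h : PD ρ P)
    (hd : 2 ≤ finrank ℝ (LinearMap.ker (P : E →ₗ[ℝ] E))) :
    NZ (OS ρ (Pu (⊤ : Submodule ℝ E))) (finrank ℝ (LinearMap.range (P : E →ₗ[ℝ] E)) + 1) := by
  have h1 := nz_comap h hd _ (LinearMap.range (P : E →ₗ[ℝ] E)) le_rfl rfl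
  have h2 : (LinearMap.range (P : E →ₗ[ℝ] E)).comap (P : E →ₗ[ℝ] E) = ⊤ := by
    rw [eq_top_iff]
    intro x _
    exact ⟨x, rfl⟩
  rw [h2] at h1
  exact h1

end Pool.Agent.Helper472_HK
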